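import Mathlib

-- part Pool.Agent.Lib.MP_9dc2ba_co.Konig
section

/-!
Edge colourings of regular bipartite multigraphs, and a labelled version.
-/

open Finset

namespace Pool.Agent.Lib.MP_9dc2ba_co

theorem card_eq_mul_image {Ed A : Type*} [DecidableEq A] (p : Ed → A) (E : Finset Ed) (d : ℕ)
    (h : ∀ a, (E.filter (p · = a)).card = 0 ∨ (E.filter (p · = a)).card = d) (W : Finset A)
    (hW : W ⊆ E.image p) : (E.filter (p · ∈ W)).card = W.card * d := by
  rw [card_eq_sum_card_fiberwise (f := p) (s := E.filter (p · ∈ W)) (t := W)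
    (fun e he => (mem_filter.1 he).2)]
  rw [← smul_eq_mul, ← sum_const]
  refine sum_congr rfl fun a ha => ?_
  have h1 : (E.filter (p · ∈ W)).filter (p · = a) = E.filter (p · = a) := by
    ext e
    simp only [mem_filter]
    constructor
    · rintro ⟨⟨h1, _⟩, h3⟩; exact ⟨h1, h3⟩
    · rintro ⟨h1, h3⟩; exact ⟨⟨h1, h3 ▸ ha⟩, h3⟩
  rw [h1]
  rcases h a with h0 | h0
  · obtain ⟨e, he, rfl⟩ := mem_image.1 (hW ha)
    exact absurd (card_eq_zero.1 h0) (ne_empty_of_mem (mem_filter.2 ⟨he, rfl⟩))
  · exact h0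

theorem exists_matching {Ed A B : Type*} [DecidableEq Ed] [DecidableEq A] [DecidableEq B]
    (p : Ed → A) (s : Ed → B) (E : Finset Ed) (d : ℕ) (hd : 0 < d)
    (hA : ∀ a, (E.filter (p · = a)).card = 0 ∨ (E.filter (p · = a)).card = d)
    (hB : ∀ b, (E.filter (s · = b)).card = 0 ∨ (E.filter (s · = b)).card = d) :
    ∃ F ⊆ E, (∀ e ∈ F, ∀ e' ∈ F, (p e = p e' ∨ s e = s e') → e = e') ∧
      (∀ e ∈ E, ∃ f ∈ F, p f = p e) ∧ (∀ e ∈ E, ∃ f ∈ F, s f = s e) := by
  let t : (E.image p) → Finset B := fun a => (E.filter (p · = a.1)).image s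
  have hall : ∀ W : Finset (E.image p), W.card ≤ (W.biUnion t).card := by
    intro W
    have h1 := card_eq_mul_image p E d hA (W.map (Function.Embedding.subtype _))
      (fun a ha => by
        obtain ⟨x, _, rfl⟩ := mem_map.1 ha
        exact x.2)
    have h2 := card_eq_mul_image s E d hB (W.biUnion t) (fun b hb => by
      obtain ⟨x, _, hx⟩ := mem_biUnion.1 hb
      obtain ⟨e, he, rfl⟩ := mem_image.1 hx
      exact mem_image_of_mem _ (mem_filter.1 he).1)
    have h3 : E.filter (p · ∈ W.map (Function.Embedding.subtype _)) ⊆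
        E.filter (s · ∈ W.biUnion t) := by
      intro e he
      obtain ⟨he1, he2⟩ := mem_filter.1 he
      obtain ⟨x, hx, hx2⟩ := mem_map.1 he2
      exact mem_filter.2 ⟨he1, mem_biUnion.2 ⟨x, hx,
        mem_image_of_mem _ (mem_filter.2 ⟨he1, hx2.symm⟩)⟩⟩
    have h4 := card_le_card h3
    rw [h1, h2, card_map] at h4
    exact Nat.le_of_mul_le_mul_right h4 hd
  obtain ⟨f, hf, hft⟩ := (all_card_le_biUnion_card_iff_existsInjective' t).1 hall
  have hg : ∀ a : (E.image p), ∃ e ∈ E, p e = a.1 ∧ s e = f a := by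
    intro a
    obtain ⟨e, he, h⟩ := mem_image.1 (hft a)
    exact ⟨e, (mem_filter.1 he).1, (mem_filter.1 he).2, h⟩
  choose g hgE hgp hgs using hg
  have hcard : (E.image s).card = (E.image p).card := by
    have h1 := card_eq_mul_image p E d hA (E.image p) Subset.rfl
    have h2 := card_eq_mul_image s E d hB (E.image s) Subset.rfl
    rw [filter_true_of_mem (fun e he => mem_image_of_mem _ he)] at h1 h2
    exact Nat.eq_of_mul_eq_mul_right hd (h2.symm.trans h1)
  have himg : univ.image f = E.image s := by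
    apply eq_of_subset_of_card_le
    · intro b hb
      obtain ⟨a, _, rfl⟩ := mem_image.1 hb
      rw [← hgs]
      exact mem_image_of_mem _ (hgE a)
    · rw [card_image_of_injective _ hf, card_univ, Fintype.card_coe, hcard]
  refine ⟨univ.image g, ?_, ?_, ?_, ?_⟩
  · intro e he
    obtain ⟨a, _, rfl⟩ := mem_image.1 he
    exact hgE a
  · intro e he e' he' h
    obtain ⟨a, _, rfl⟩ := mem_image.1 he
    obtain ⟨a', _, rfl⟩ := mem_image.1 he'
    rcases h with h | h
    · rw [hgp, hgp] at h
      rw [Subtype.ext h]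
    · rw [hgs, hgs] at h
      rw [hf h]
  · intro e he
    exact ⟨g ⟨p e, mem_image_of_mem _ he⟩, mem_image_of_mem _ (mem_univ _), hgp _⟩
  · intro e he
    have : s e ∈ univ.image f := himg ▸ mem_image_of_mem _ he
    obtain ⟨a, _, ha⟩ := mem_image.1 this
    exact ⟨g a, mem_image_of_mem _ (mem_univ _), (hgs a).trans ha⟩

theorem card_sdiff_fiber {Ed A : Type*} [DecidableEq Ed] [DecidableEq A] (p : Ed → A)
    (E F : Finset Ed) (hF : F ⊆ E) (d : ℕ)
    (h : ∀ a, (E.filter (p · = a)).card = 0 ∨ (E.filter (p · = a)).card = d + 1)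
    (h1 : ∀ e ∈ F, ∀ e' ∈ F, p e = p e' → e = e') (h2 : ∀ e ∈ E, ∃ f ∈ F, p f = p e) (a : A) :
    ((E \ F).filter (p · = a)).card = 0 ∨ ((E \ F).filter (p · = a)).card = d := by
  rcases h a with h0 | h0
  · left
    exact Nat.eq_zero_of_le_zero (h0 ▸ card_le_card (filter_subset_filter _ sdiff_subset))
  · right
    obtain ⟨e, he⟩ := card_pos.1 (show 0 < (E.filter (p · = a)).card by omega)
    obtain ⟨f, hf, hpf⟩ := h2 e (mem_filter.1 he).1
    have hfa : p f = a := hpf.trans (mem_filter.1 he).2
    have : (E \ F).filter (p · = a) = (E.filter (p · = a)).erase f := by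
      ext x
      simp only [mem_filter, mem_sdiff, mem_erase]
      constructor
      · rintro ⟨⟨h3, h4⟩, h5⟩
        exact ⟨fun h6 => h4 (h6 ▸ hf), h3, h5⟩
      · rintro ⟨h3, h4, h5⟩
        exact ⟨⟨h4, fun h6 => h3 (h1 x h6 f hf (h5.trans hfa.symm))⟩, h5⟩
    rw [this, card_erase_of_mem (mem_filter.2 ⟨hF hf, hfa⟩), h0]
    rfl

theorem edge_colouring {Ed A B C : Type*} [DecidableEq Ed] [DecidableEq A] [DecidableEq B]
    [DecidableEq C] [Nonempty C] (p : Ed → A) (s : Ed → B) (d : ℕ) :
    ∀ (E : Finset Ed) (G : Finset C), G.card = d →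
      (∀ a, (E.filter (p · = a)).card = 0 ∨ (E.filter (p · = a)).card = d) →
      (∀ b, (E.filter (s · = b)).card = 0 ∨ (E.filter (s · = b)).card = d) →
      ∃ c : Ed → C, (∀ e ∈ E, c e ∈ G) ∧
        ∀ e ∈ E, ∀ e' ∈ E, (p e = p e' ∨ s e = s e') → c e = c e' → e = e' := by
  induction d with
  | zero =>
    intro E G _ hA _
    have hE : ∀ e, e ∉ E := fun e he => by
      have h0 : (E.filter (p · = p e)).card = 0 := by rcases hA (p e) with h | h <;> exact h
      exact absurd (card_eq_zero.1 h0) (ne_empty_of_mem (mem_filter.2 ⟨he, rfl⟩))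
    exact ⟨fun _ => Classical.arbitrary C, fun e he => absurd he (hE e),
      fun e he => absurd he (hE e)⟩
  | succ d ih =>
    intro E G hG hA hB
    obtain ⟨F, hF, h1, h2, h3⟩ := exists_matching p s E (d + 1) (Nat.succ_pos d) hA hB
    obtain ⟨z, hz⟩ := card_pos.1 (show 0 < G.card by omega)
    obtain ⟨c, hc1, hc2⟩ := ih (E \ F) (G.erase z) (by rw [card_erase_of_mem hz, hG]; rfl)
      (card_sdiff_fiber p E F hF d hA (fun e he e' he' h => h1 e he e' he' (Or.inl h)) h2)
      (card_sdiff_fiber s E F hF d hB (fun e he e' he' h => h1 e he e' he' (Or.inr h)) h3)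
    refine ⟨fun e => if e ∈ F then z else c e, fun e he => ?_, fun e he e' he' h h' => ?_⟩
    · by_cases hf : e ∈ F
      · simp only [if_pos hf]; exact hz
      · simp only [if_neg hf]; exact mem_of_mem_erase (hc1 e (mem_sdiff.2 ⟨he, hf⟩))
    · by_cases hf : e ∈ F <;> by_cases hf' : e' ∈ F
      · exact h1 e hf e' hf' h
      · simp only [if_pos hf, if_neg hf'] at h'
        exact absurd h'.symm (ne_of_mem_erase (hc1 e' (mem_sdiff.2 ⟨he', hf'⟩)))
      · simp only [if_neg hf, if_pos hf'] at h'
        exact absurd h' (ne_of_mem_erase (hc1 e (mem_sdiff.2 ⟨he, hf⟩)))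
      · simp only [if_neg hf, if_neg hf'] at h'
        exact hc2 e (mem_sdiff.2 ⟨he, hf⟩) e' (mem_sdiff.2 ⟨he', hf'⟩) h h'

/-- A family of labels in which every label `k` occurs not at all or exactly `|col k|` times, and
different labels have disjoint colour sets. -/
def Good {ι K C : Type*} (col : K → Finset C) (f : ι → K) : Prop :=
  (∀ k, Nat.card {i // f i = k} = 0 ∨ Nat.card {i // f i = k} = (col k).card) ∧
    ∀ i j, f i ≠ f j → Disjoint (col (f i)) (col (f j))

theorem Good.of_bijective {ι ι' K C : Type*} {col : K → Finset C} {f : ι → K} (h : Good col f)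
    (g : ι' → ι) (hg : Function.Bijective g) {f' : ι' → K} (hf : ∀ i, f' i = f (g i)) :
    Good col f' := by
  refine ⟨fun k => ?_, fun i j hij => ?_⟩
  · have : Nat.card {i // f' i = k} = Nat.card {i // f i = k} :=
      Nat.card_congr ((Equiv.ofBijective g hg).subtypeEquiv fun i => by
        rw [hf]; rfl)
    rw [this]
    exact h.1 k
  · rw [hf, hf] at *
    exact h.2 _ _ hij

theorem Good.option {ι K C : Type*} [Finite ι] {col : K → Finset C} {f : ι → K} (h : Good col f)
    (k₀ : K) (z : C) (hz : col k₀ = {z}) (hf : ∀ i, z ∉ col (f i)) :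
    Good col (fun o : Option ι => o.elim k₀ f) := by
  have hne : ∀ i, f i ≠ k₀ := fun i hi => hf i (by rw [hi, hz]; exact mem_singleton_self z)
  refine ⟨fun k => ?_, fun i j hij => ?_⟩
  · by_cases hk : k = k₀
    · right
      subst hk
      rw [hz, card_singleton, Nat.card_eq_one_iff_exists]
      refine ⟨⟨none, rfl⟩, ?_⟩
      rintro ⟨_ | i, hi⟩
      · rfl
      · exact absurd hi (hne i)
    · have : Nat.card {o : Option ι // o.elim k₀ f = k} = Nat.card {i // f i = k} := by
        symm
        refine Nat.card_congr (Equiv.ofBijective (fun i => ⟨some i.1, i.2⟩) ⟨?_, ?_⟩)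
        · intro i j hij
          exact Subtype.ext (Option.some_injective _ (congrArg Subtype.val hij))
        · rintro ⟨_ | i, hi⟩
          · exact absurd hi.symm hk
          · exact ⟨⟨i, hi⟩, rfl⟩
      rw [this]
      exact h.1 k
  · rcases i with _ | i <;> rcases j with _ | j
    · exact absurd rfl hij
    · simp only [Option.elim_none, Option.elim_some, hz, disjoint_singleton_left]
      exact hf j
    · simp only [Option.elim_none, Option.elim_some, hz, disjoint_singleton_right]
      exact hf i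
    · exact h.2 _ _ hij

theorem Good.map {ι K K' C C' : Type*} {col : K → Finset C} {f : ι → K} (h : Good col f)
    (φ : K → K') (hφ : Function.Injective φ) (ψ : C ↪ C') (col' : K' → Finset C')
    (hcol : ∀ k, col' (φ k) = (col k).map ψ) : Good col' (fun i => φ (f i)) := by
  refine ⟨fun k => ?_, fun i j hij => ?_⟩
  · by_cases hk : ∃ k', φ k' = k
    · obtain ⟨k', rfl⟩ := hk
      simp only [hφ.eq_iff, hcol, card_map]
      exact h.1 k'
    · left
      rw [Nat.card_eq_zero]
      exact Or.inl ⟨fun i => hk ⟨_, i.2⟩⟩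
  · simp only [hcol, disjoint_map]
    exact h.2 _ _ fun e => hij (by simp only [e])

theorem card_filter_filter {Ed X K : Type*} [Fintype Ed] [DecidableEq X] [DecidableEq K]
    (lab : Ed → K) (r : Ed → X) (x : X) (k : K) :
    ((univ.filter (lab · = k)).filter (r · = x)).card =
      Nat.card {e : {e // r e = x} // lab e.1 = k} := by
  rw [← Fintype.card_coe, ← Nat.card_eq_fintype_card]
  exact Nat.card_congr ⟨fun e => ⟨⟨e.1, (mem_filter.1 e.2).2⟩,
    (mem_filter.1 (mem_filter.1 e.2).1).2⟩,
    fun e => ⟨e.1.1, mem_filter.2 ⟨mem_filter.2 ⟨mem_univ _, e.2⟩, e.1.2⟩⟩, fun _ => rfl,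
    fun _ => rfl⟩

theorem labelled_colouring {Ed A B K C : Type*} [Finite Ed] [Nonempty C] (p : Ed → A)
    (s : Ed → B) (lab : Ed → K) (col : K → Finset C)
    (hA : ∀ a, Good col (fun e : {e // p e = a} => lab e.1))
    (hB : ∀ b, Good col (fun e : {e // s e = b} => lab e.1)) :
    ∃ c : Ed → C, (∀ e, c e ∈ col (lab e)) ∧
      ∀ e e', (p e = p e' ∨ s e = s e') → c e = c e' → e = e' := by
  classical
  have := Fintype.ofFinite Ed
  have h := fun k => edge_colouring p s (col k).card (univ.filter (lab · = k)) (col k) rfl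
    (fun a => by rw [card_filter_filter lab p a k]; exact (hA a).1 k)
    (fun b => by rw [card_filter_filter lab s b k]; exact (hB b).1 k)
  choose c hc1 hc2 using h
  have hm : ∀ e, c (lab e) e ∈ col (lab e) := fun e => hc1 _ _ (mem_filter.2 ⟨mem_univ _, rfl⟩)
  refine ⟨fun e => c (lab e) e, hm, fun e e' h h' => ?_⟩
  have h'' : c (lab e) e = c (lab e') e' := h'
  by_cases hl : lab e = lab e'
  · exact hc2 (lab e') e (mem_filter.2 ⟨mem_univ _, hl⟩) e' (mem_filter.2 ⟨mem_univ _, rfl⟩) h
      (by rw [← h'', hl])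
  · have hd : Disjoint (col (lab e)) (col (lab e')) := by
      rcases h with h | h
      · exact (hA (p e')).2 ⟨e, h⟩ ⟨e', rfl⟩ hl
      · exact (hB (s e')).2 ⟨e, h⟩ ⟨e', rfl⟩ hl
    exact absurd (h'' ▸ hm e') (disjoint_left.1 hd (hm e))

end Pool.Agent.Lib.MP_9dc2ba_co
end

-- part Pool.Agent.Lib.MP_9dc2ba_co.Net
section

/-!
Colouring the flags of an affine plane from a labelled array.
-/

open Finset Function

namespace Pool.Agent.Lib.MP_9dc2ba_co

/-- A labelled square array. -/
structure Arr (M K : Type*) where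
  b : M
  m0 : M
  hm : m0 ≠ b
  κ : M → M → K
  col : K → Finset M
  row : ∀ a, a ≠ b → Good col (κ a)
  colg : ∀ m, Good col (fun a : {a // a ≠ b} => κ a.1 m)
  avoid : ∀ a m, a ≠ b → m ∉ col (κ a m)
  diag : ∀ a, a ≠ b → κ a a = κ a b

/-- An affine plane given by the line through a point in a given direction. -/
structure Pl (J S M : Type*) where
  ln : J → Option M → S
  cls : ∀ x y m m', ln x m = ln y m' → m = m'
  join : ∀ x y, ∃ m, ln x m = ln y m
  uniq : ∀ x y m m', m ≠ m' → ln x m = ln y m → ln x m' = ln y m' → x = y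
  meet : ∀ m m' x y, m ≠ m' → ∃ z, ln z m = ln x m ∧ ln z m' = ln y m'
  w : J
  ys : J
  hw : ln ys none = ln w none
  hne : ys ≠ w

namespace Pl

variable {J S M K : Type*} (P : Pl J S M) (A : Arr M K)

open Classical in
/-- intersection point -/
noncomputable def mt (m m' : Option M) (x y : J) : J :=
  if h : m ≠ m' then (P.meet m m' x y h).choose else x

theorem mt_left {m m' : Option M} (h : m ≠ m') (x y : J) : P.ln (P.mt m m' x y) m = P.ln x m := by
  rw [mt, dif_pos h]; exact (P.meet m m' x y h).choose_spec.1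

theorem mt_right {m m' : Option M} (h : m ≠ m') (x y : J) :
    P.ln (P.mt m m' x y) m' = P.ln y m' := by
  rw [mt, dif_pos h]; exact (P.meet m m' x y h).choose_spec.2

open Classical in
/-- direction of the line through two points -/
noncomputable def dir (x y : J) : M :=
  if h : ∃ m, P.ln x (some m) = P.ln y (some m) then h.choose else A.b

theorem dir_spec {x y : J} (h : P.ln x none ≠ P.ln y none) :
    P.ln x (some (P.dir A x y)) = P.ln y (some (P.dir A x y)) := by
  have : ∃ m, P.ln x (some m) = P.ln y (some m) := by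
    obtain ⟨_ | m, hm⟩ := P.join x y
    · exact absurd hm h
    · exact ⟨m, hm⟩
  rw [dir, dif_pos this]
  exact this.choose_spec

theorem dir_eq {x y : J} (h : P.ln x none ≠ P.ln y none) {m : M}
    (hm : P.ln x (some m) = P.ln y (some m)) : P.dir A x y = m := by
  by_contra hne
  exact h (congrArg (P.ln · none)
    (P.uniq x y _ _ (fun e => hne (Option.some_injective _ e)) (P.dir_spec A h) hm))

open Classical in
/-- direction of the line through `w` attached to the row `a` -/
noncomputable def mm (a : M) : M := Equiv.swap A.b A.m0 a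

open Classical in
/-- second direction attached to the row `a` -/
noncomputable def mm' (a : M) : M := if a = A.m0 then A.m0 else A.b

theorem mm_mm (a : M) : mm A (mm A a) = a := by simp [mm]

theorem mm_ne {a : M} (h : a ≠ A.b) : mm A a ≠ A.m0 := by
  intro e
  have := congrArg (mm A) e
  rw [mm_mm] at this
  exact h (this.trans (by simp [mm]))

theorem mm_ne' {a : M} (h : a ≠ A.m0) : mm A a ≠ A.b := by
  intro e
  have := congrArg (mm A) e
  rw [mm_mm] at this
  exact h (this.trans (by simp [mm]))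

theorem mm_ne_mm' {a : M} (h : a ≠ A.b) : mm A a ≠ mm' A a := by
  unfold mm'
  split_ifs with h1
  · exact mm_ne A h
  · exact mm_ne' A h1

theorem kappa_mm {a : M} (h : a ≠ A.b) : A.κ a (mm A a) = A.κ a A.b := by
  by_cases h1 : a = A.m0
  · simp [mm, h1]
  · have : mm A a = a :=
      @Equiv.swap_apply_of_ne_of_ne _ (fun a b => Classical.propDecidable (a = b)) _ _ _ h h1
    rw [this, A.diag a h]

theorem kappa_mm' {a : M} (h : a ≠ A.b) : A.κ a (mm' A a) = A.κ a A.b := by
  unfold mm'
  split_ifs with h1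
  · rw [← h1, A.diag a h]
  · rfl

/-- the special point of the row `a` -/
noncomputable def xx (a : M) : J := P.mt (some (mm A a)) (some A.m0) P.w P.ys

theorem xx_w {a : M} (h : a ≠ A.b) : P.ln (P.xx A a) (some (mm A a)) = P.ln P.w (some (mm A a)) :=
  P.mt_left (fun e => mm_ne A h (Option.some_injective _ e)) _ _

theorem xx_ys {a : M} (h : a ≠ A.b) : P.ln (P.xx A a) (some A.m0) = P.ln P.ys (some A.m0) :=
  P.mt_right (fun e => mm_ne A h (Option.some_injective _ e)) _ _

theorem xx_not {a : M} (h : a ≠ A.b) : P.ln (P.xx A a) none ≠ P.ln P.w none := by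
  intro e
  have h1 : P.xx A a = P.w := P.uniq _ _ _ _ (Option.some_ne_none _) (P.xx_w A h) e
  have h2 := P.xx_ys A h
  rw [h1] at h2
  exact P.hne (P.uniq _ _ _ _ (Option.some_ne_none _) h2.symm P.hw)

theorem xx_inj {a a' : M} (h : a ≠ A.b) (h' : a' ≠ A.b)
    (e : P.ln (P.xx A a) none = P.ln (P.xx A a') none) : a = a' := by
  have h1 : P.xx A a = P.xx A a' :=
    P.uniq _ _ _ _ (Option.some_ne_none _) ((P.xx_ys A h).trans (P.xx_ys A h').symm) e
  have h2 := P.dir_eq A (P.xx_not A h) (P.xx_w A h)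
  have h3 := P.dir_eq A (P.xx_not A h') (P.xx_w A h')
  rw [h1, h3] at h2
  rw [← mm_mm A a, ← h2, mm_mm]

theorem exists_xx {x : J} (h : P.ln x none ≠ P.ln P.w none) :
    ∃ a, a ≠ A.b ∧ P.ln (P.xx A a) none = P.ln x none := by
  let z := P.mt none (some A.m0) x P.ys
  have hz1 : P.ln z none = P.ln x none := P.mt_left (Option.some_ne_none _).symm _ _
  have hz2 : P.ln z (some A.m0) = P.ln P.ys (some A.m0) :=
    P.mt_right (Option.some_ne_none _).symm _ _
  have hz3 : P.ln z none ≠ P.ln P.w none := hz1 ▸ h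
  have hz4 := P.dir_spec A hz3
  have hne : P.dir A z P.w ≠ A.m0 := by
    intro e
    rw [e, hz2] at hz4
    exact P.hne (P.uniq _ _ _ _ (Option.some_ne_none _) hz4 P.hw)
  refine ⟨mm A (P.dir A z P.w), mm_ne' A hne, ?_⟩
  have h1 := P.xx_w A (mm_ne' A hne)
  rw [mm_mm] at h1
  rw [P.uniq _ z _ _ (fun e => hne (Option.some_injective _ e)) (h1.trans hz4.symm)
    ((P.xx_ys A (mm_ne' A hne)).trans hz2.symm), hz1]

open Classical in
/-- the centre of the row `a` -/
noncomputable def yy (a : M) : J :=
  if a = A.b then P.w else P.mt none (some (mm' A a)) P.w (P.xx A a)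

theorem yy_b : P.yy A A.b = P.w := by simp [yy]

theorem yy_U (a : M) : P.ln (P.yy A a) none = P.ln P.w none := by
  unfold yy
  split_ifs
  · rfl
  · exact P.mt_left (Option.some_ne_none _).symm _ _

theorem yy_xx {a : M} (h : a ≠ A.b) :
    P.ln (P.yy A a) (some (mm' A a)) = P.ln (P.xx A a) (some (mm' A a)) := by
  rw [yy, if_neg h]
  exact P.mt_right (Option.some_ne_none _).symm _ _

theorem yy_ne {a : M} (h : a ≠ A.b) : P.yy A a ≠ P.w := by
  intro e
  have h1 := P.yy_xx A h
  rw [e] at h1
  have h2 := P.uniq _ _ _ _ (fun e => mm_ne_mm' A h (Option.some_injective _ e))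
    (P.xx_w A h) h1.symm
  exact P.xx_not A h (by rw [h2])

theorem yy_m0 : P.yy A A.m0 = P.ys := by
  have h1 := P.yy_xx A A.hm
  rw [mm', if_pos rfl, P.xx_ys A A.hm] at h1
  exact P.uniq _ _ _ _ (Option.some_ne_none _) h1 ((P.yy_U A _).trans P.hw.symm)

theorem yy_inj : Injective (P.yy A) := by
  have key : ∀ a, a ≠ A.b → a ≠ A.m0 → P.yy A a ≠ P.ys := by
    intro a h1 h2 e
    have h3 := P.yy_xx A h1
    rw [mm', if_neg h2, e] at h3
    have h4 := P.uniq _ _ _ _ (fun e => A.hm (Option.some_injective _ e)) (P.xx_ys A h1) h3.symm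
    exact P.xx_not A h1 (by rw [h4, P.hw])
  intro a a' e
  by_cases h1 : a = A.b
  · by_contra h2
    rw [h1, yy_b] at e
    exact P.yy_ne A (fun e' => h2 (h1.trans e'.symm)) e.symm
  by_cases h1' : a' = A.b
  · rw [h1', yy_b] at e
    exact absurd e (P.yy_ne A h1)
  by_cases h2 : a = A.m0
  · by_contra h3
    rw [h2, yy_m0] at e
    exact key a' h1' (fun e' => h3 (h2.trans e'.symm)) e.symm
  by_cases h2' : a' = A.m0
  · rw [h2', yy_m0] at e
    exact absurd e (key a h1 h2)
  have h3 := P.yy_xx A h1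
  have h4 := P.yy_xx A h1'
  rw [mm', if_neg h2, e] at h3
  rw [mm', if_neg h2'] at h4
  have h5 := P.uniq _ _ _ _ (fun e => A.hm (Option.some_injective _ e))
    ((P.xx_ys A h1).trans (P.xx_ys A h1').symm) (h3.symm.trans h4)
  exact P.xx_inj A h1 h1' (by rw [h5])

theorem yy_surj {u : J} (hu : P.ln u none = P.ln P.w none) : ∃ a, P.yy A a = u := by
  by_cases h1 : u = P.w
  · exact ⟨A.b, by rw [yy_b, h1]⟩
  by_cases h2 : u = P.ys
  · exact ⟨A.m0, by rw [yy_m0, h2]⟩
  have hbm : some A.b ≠ some A.m0 := fun e => A.hm (Option.some_injective _ e).symm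
  let z := P.mt (some A.b) (some A.m0) u P.ys
  have hz1 : P.ln z (some A.b) = P.ln u (some A.b) := P.mt_left hbm _ _
  have hz2 : P.ln z (some A.m0) = P.ln P.ys (some A.m0) := P.mt_right hbm _ _
  have hz3 : P.ln z none ≠ P.ln P.w none := by
    intro e
    have h3 := P.uniq _ _ _ _ (Option.some_ne_none _) hz2 (e.trans P.hw.symm)
    have h4 := P.uniq _ _ _ _ (Option.some_ne_none _) hz1 (e.trans hu.symm)
    exact h2 (h4.symm.trans h3)
  obtain ⟨a, ha, hz⟩ := P.exists_xx A hz3
  have hxz : P.xx A a = z :=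
    P.uniq _ _ _ _ (Option.some_ne_none _) ((P.xx_ys A ha).trans hz2.symm) hz
  have ha' : a ≠ A.m0 := by
    intro e
    have h3 := P.xx_w A ha
    have h4 : mm A a = A.b := by simp [mm, e]
    rw [h4, hxz, hz1] at h3
    exact h1 (P.uniq _ _ _ _ (Option.some_ne_none _) h3 hu)
  refine ⟨a, ?_⟩
  have h3 := P.yy_xx A ha
  rw [mm', if_neg ha', hxz, hz1] at h3
  exact P.uniq _ _ _ _ (Option.some_ne_none _) h3 ((P.yy_U A a).trans hu.symm)

open Classical in
/-- the row attached to a point -/
noncomputable def rho (x : J) : M :=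
  if h : P.ln x none = P.ln P.w none then (P.yy_surj A h).choose else (P.exists_xx A h).choose

theorem rho_yy (a : M) : P.rho A (P.yy A a) = a := by
  apply P.yy_inj A
  rw [rho, dif_pos (P.yy_U A a)]
  exact (P.yy_surj A (P.yy_U A a)).choose_spec

theorem rho_ne {x : J} (h : P.ln x none ≠ P.ln P.w none) : P.rho A x ≠ A.b := by
  rw [rho, dif_neg h]
  exact (P.exists_xx A h).choose_spec.1

theorem xx_rho {x : J} (h : P.ln x none ≠ P.ln P.w none) :
    P.ln (P.xx A (P.rho A x)) none = P.ln x none := by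
  rw [rho, dif_neg h]
  exact (P.exists_xx A h).choose_spec.2

theorem rho_eq {x : J} {a : M} (ha : a ≠ A.b) (h : P.ln x none = P.ln (P.xx A a) none) :
    P.rho A x = a := by
  have h1 : P.ln x none ≠ P.ln P.w none := h ▸ P.xx_not A ha
  exact P.xx_inj A (P.rho_ne A h1) ha ((P.xx_rho A h1).trans h)

theorem rho_ne' {x : J} (h : x ≠ P.w) : P.rho A x ≠ A.b := by
  by_cases h1 : P.ln x none = P.ln P.w none
  · obtain ⟨a, rfl⟩ := P.yy_surj A h1
    rw [rho_yy]
    rintro rfl
    exact h (P.yy_b A)
  · exact P.rho_ne A h1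

open Classical in
/-- direction of the partner line of a point -/
noncomputable def mu (x : J) : M :=
  if x = P.w then A.m0 else if P.ln x none = P.ln P.w none then mm' A (P.rho A x)
  else if x = P.xx A (P.rho A x) then mm A (P.rho A x) else P.dir A x (P.yy A (P.rho A x))

theorem mu_w : P.mu A P.w = A.m0 := by simp [mu]

theorem mu_yy {a : M} (h : a ≠ A.b) : P.mu A (P.yy A a) = mm' A a := by
  rw [mu, if_neg (P.yy_ne A h), if_pos (P.yy_U A a), rho_yy]

theorem mu_xx {a : M} (h : a ≠ A.b) : P.mu A (P.xx A a) = mm A a := by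
  have h1 := P.xx_not A h
  rw [mu, if_neg (fun e => h1 (by rw [e])), if_neg h1, P.rho_eq A h rfl, if_pos rfl]

theorem mu_other {x : J} {a : M} (h : a ≠ A.b) (h1 : P.ln x none = P.ln (P.xx A a) none)
    (h2 : x ≠ P.xx A a) : P.mu A x = P.dir A x (P.yy A a) := by
  have h3 : P.ln x none ≠ P.ln P.w none := h1 ▸ P.xx_not A h
  rw [mu, if_neg (fun e => h3 (by rw [e])), if_neg h3, P.rho_eq A h h1, if_neg h2]

/-- colour sets of the flag labels -/
def col' : K ⊕ Bool → Finset (Option M)
  | .inl k => (A.col k).map Function.Embedding.some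
  | .inr false => {none}
  | .inr true => {some A.b}

theorem good_row {a : M} [Finite M] (h : a ≠ A.b) :
    Good (col' A) (fun o : Option M => o.elim (.inr false) fun m => .inl (A.κ a m)) :=
  ((A.row a h).map Sum.inl Sum.inl_injective Function.Embedding.some (col' A)
    fun _ => rfl).option _ none rfl fun i => by simp [col']

open Classical in
theorem good_col [Finite M] (m : M) (t : Bool) (z : Option M) (hz : col' A (.inr t) = {z})
    (h : z = none ∨ z = some m) :
    Good (col' A) (fun a : M => if a = A.b then .inr t else .inl (A.κ a m)) := by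
  have h1 := ((A.colg m).map Sum.inl Sum.inl_injective Function.Embedding.some (col' A)
    fun _ => rfl).option (.inr t) z hz fun i => by
      rcases h with rfl | rfl
      · simp [col']
      · simpa [col'] using A.avoid i.1 m i.2
  refine h1.of_bijective (Equiv.optionSubtypeNe A.b).symm (Equiv.bijective _) fun a => ?_
  by_cases ha : a = A.b
  · simp [ha]
  · simp [ha, Equiv.optionSubtypeNe_symm_of_ne ha]

open Classical in
/-- the row attached to a non vertical flag -/
noncomputable def rho' (x : J) (m : M) : M := if x = P.w then mm A m else P.rho A x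

open Classical in
/-- the label of a flag -/
noncomputable def lab : J × Option M → K ⊕ Bool
  | (x, none) => if x = P.w then .inr true else .inl (A.κ (P.rho A x) (P.mu A x))
  | (x, some m) => if m = P.mu A x then .inr false else .inl (A.κ (P.rho' A x m) m)

theorem rho'_ne {x : J} {m : M} (h : m ≠ P.mu A x) : P.rho' A x m ≠ A.b := by
  unfold rho'
  split_ifs with h1
  · rw [h1, mu_w] at h
    exact mm_ne' A h
  · exact P.rho_ne' A h1

theorem good_point [Finite M] (x : J) :
    Good (col' A) (fun e : {e : J × Option M // e.1 = x} => P.lab A e.1) := by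
  classical
  have hb : Bijective (fun e : {e : J × Option M // e.1 = x} => e.1.2) := by
    constructor
    · intro e e' h
      exact Subtype.ext (Prod.ext (e.2.trans e'.2.symm) h)
    · intro o
      exact ⟨⟨(x, o), rfl⟩, rfl⟩
  by_cases hx : x = P.w
  · have h1 := (good_col A A.b true _ rfl (Or.inr rfl)).option (.inr false) none rfl fun a => by
      by_cases ha : a = A.b <;> simp [ha, col']
    have hm : Bijective (Option.map (mm A)) := Function.Involutive.bijective (by
      rintro (_ | a)
      · rfl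
      · simp [mm_mm])
    have hb' := (Equiv.swap none (some A.b)).bijective.comp (hm.comp hb)
    refine h1.of_bijective _ hb' ?_
    rintro ⟨⟨y, _ | m⟩, rfl⟩
    · simp only at hx
      simp [lab, hx]
    · simp only at hx
      by_cases hm0 : m = A.m0
      · simp [lab, hx, mu_w, hm0, mm]
      · have h2 := mm_ne' A hm0
        have h3 : Equiv.swap none (some A.b) (some (mm A m)) = some (mm A m) :=
          Equiv.swap_apply_of_ne_of_ne (by simp) (by simpa using h2)
        have h4 := kappa_mm A h2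
        rw [mm_mm] at h4
        simp [lab, hx, mu_w, hm0, h3, h2, rho', h4]
  · have hb' := (Equiv.swap none (some (P.mu A x))).bijective.comp hb
    refine (good_row A (P.rho_ne' A hx)).of_bijective _ hb' ?_
    rintro ⟨⟨y, _ | m⟩, rfl⟩
    · simp only at hx
      simp [lab, hx]
    · simp only at hx
      by_cases hm : m = P.mu A y
      · simp [lab, hm]
      · have h3 : Equiv.swap none (some (P.mu A y)) (some m) = some m :=
          Equiv.swap_apply_of_ne_of_ne (by simp) (by simpa using hm)
        simp [lab, hm, h3, rho', hx]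

theorem fiber_eq {x₀ : J} {o : Option M} (e : {e : J × Option M // P.ln e.1 e.2 = P.ln x₀ o}) :
    e.1.2 = o := P.cls _ _ _ _ e.2

theorem good_vertical [Finite M] (x₀ : J) :
    Good (col' A) (fun e : {e : J × Option M // P.ln e.1 e.2 = P.ln x₀ none} => P.lab A e.1) := by
  classical
  by_cases hx : P.ln x₀ none = P.ln P.w none
  · refine (good_col A A.b true _ rfl (Or.inr rfl)).of_bijective (fun e => P.rho A e.1.1)
      ⟨?_, ?_⟩ ?_
    · rintro ⟨⟨y, o⟩, h⟩ ⟨⟨y', o'⟩, h'⟩ e
      obtain rfl : o = none := P.cls _ _ _ _ h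
      obtain rfl : o' = none := P.cls _ _ _ _ h'
      obtain ⟨a, rfl⟩ := P.yy_surj A (h.trans hx)
      obtain ⟨a', rfl⟩ := P.yy_surj A (h'.trans hx)
      simp only [rho_yy] at e
      subst e
      rfl
    · intro a
      exact ⟨⟨(P.yy A a, none), (P.yy_U A a).trans hx.symm⟩, P.rho_yy A a⟩
    · rintro ⟨⟨y, o⟩, h⟩
      obtain rfl : o = none := P.cls _ _ _ _ h
      obtain ⟨a, rfl⟩ := P.yy_surj A (h.trans hx)
      by_cases ha : a = A.b
      · have h1 := P.rho_yy A a
        rw [ha, yy_b] at h1
        simp [lab, ha, yy_b, h1]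
      · simp [lab, ha, rho_yy, P.yy_ne A ha, P.mu_yy A ha, kappa_mm' A ha]
  · obtain ⟨a, ha, hxa⟩ := P.exists_xx A hx
    have hn : ∀ y, P.ln y none = P.ln x₀ none → P.ln y none ≠ P.ln (P.yy A a) none := by
      intro y hy
      rw [hy, yy_U]
      exact hx
    refine (((A.row a ha).map Sum.inl Sum.inl_injective Function.Embedding.some (col' A)
      fun _ => rfl)).of_bijective (fun e => P.dir A e.1.1 (P.yy A a)) ⟨?_, ?_⟩ ?_
    · rintro ⟨⟨y, o⟩, h⟩ ⟨⟨y', o'⟩, h'⟩ e
      obtain rfl : o = none := P.cls _ _ _ _ h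
      obtain rfl : o' = none := P.cls _ _ _ _ h'
      have h1 := P.dir_spec A (hn y h)
      have h2 := P.dir_spec A (hn y' h')
      simp only at e
      rw [e] at h1
      obtain rfl := P.uniq _ _ _ _ (Option.some_ne_none _) (h1.trans h2.symm) (h.trans h'.symm)
      rfl
    · intro m
      have h1 := P.mt_left (Option.some_ne_none m).symm x₀ (P.yy A a)
      exact ⟨⟨(_, none), h1⟩,
        P.dir_eq A (hn _ h1) (P.mt_right (Option.some_ne_none m).symm x₀ (P.yy A a))⟩
    · rintro ⟨⟨y, o⟩, h⟩
      obtain rfl : o = none := P.cls _ _ _ _ h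
      have hy : y ≠ P.w := fun e => hx (by rw [← e]; exact h.symm)
      have hr := P.rho_eq A ha (h.trans hxa.symm)
      by_cases hyx : y = P.xx A a
      · have h1 := P.dir_eq A (hn y h) (hyx ▸ (P.yy_xx A ha).symm)
        simp only [lab, if_neg hy, hr, h1]
        rw [hyx, P.mu_xx A ha, kappa_mm A ha, kappa_mm' A ha]
      · simp only [lab, if_neg hy, hr]
        rw [P.mu_other A ha (h.trans hxa.symm) hyx]

theorem good_line [Finite M] (x₀ : J) (m : M) :
    Good (col' A)
      (fun e : {e : J × Option M // P.ln e.1 e.2 = P.ln x₀ (some m)} => P.lab A e.1) := by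
  classical
  have hsn := Option.some_ne_none m
  refine (good_col A m false _ rfl (Or.inl rfl)).of_bijective
    (fun e => if m = P.mu A e.1.1 then A.b else P.rho' A e.1.1 m) ?_ ?_
  · -- an injection from the line into `M`
    let g : {e : J × Option M // P.ln e.1 e.2 = P.ln x₀ (some m)} → M := fun e =>
      if P.ln e.1.1 none = P.ln P.w none then A.b else P.rho A e.1.1
    have hg : Injective g := by
      rintro ⟨⟨y, o⟩, h⟩ ⟨⟨y', o'⟩, h'⟩ e
      obtain rfl : o = some m := P.cls _ _ _ _ h
      obtain rfl : o' = some m := P.cls _ _ _ _ h'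
      have : P.ln y none = P.ln y' none := by
        simp only [g] at e
        split_ifs at e with h1 h2 h2
        · exact h1.trans h2.symm
        · exact absurd e.symm (P.rho_ne A h2)
        · exact absurd e (P.rho_ne A h1)
        · rw [← P.xx_rho A h1, e, P.xx_rho A h2]
      obtain rfl := P.uniq _ _ _ _ hsn (h.trans h'.symm) this
      rfl
    have := Finite.of_injective g hg
    refine Function.Surjective.bijective_of_nat_card_le ?_ (Nat.card_le_card_of_injective g hg)
    have hpt : ∀ a, ∃ x, P.ln x (some m) = P.ln x₀ (some m) ∧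
        P.ln x none = P.ln (P.xx A a) none := fun a => P.meet _ _ _ _ hsn
    intro a
    by_cases ha : a = A.b
    · suffices h : ∃ x, P.ln x (some m) = P.ln x₀ (some m) ∧ m = P.mu A x by
        obtain ⟨x, h1, h2⟩ := h
        exact ⟨⟨(x, some m), h1⟩, by simp only [if_pos h2, ha]⟩
      obtain ⟨u, hu1, hu2⟩ := P.meet _ _ x₀ P.w hsn
      by_cases hmu : m = P.mu A u
      · exact ⟨u, hu1, hmu⟩
      obtain ⟨c, rfl⟩ := P.yy_surj A hu2
      by_cases hc : c = A.b
      · rw [hc, yy_b] at hu1 hmu
        rw [mu_w] at hmu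
        have h1 := P.xx_w A (mm_ne' A hmu)
        have h2 := P.mu_xx A (mm_ne' A hmu)
        rw [mm_mm] at h1 h2
        exact ⟨_, h1.trans hu1, h2.symm⟩
      · rw [P.mu_yy A hc] at hmu
        obtain ⟨x, h1, h2⟩ := hpt c
        have hn : P.ln x none ≠ P.ln (P.yy A c) none := by
          rw [h2, yy_U]; exact P.xx_not A hc
        have h3 := P.dir_eq A hn (h1.trans hu1.symm)
        have h4 : x ≠ P.xx A c := by
          rintro rfl
          exact hmu (h3.symm.trans (P.dir_eq A hn (P.yy_xx A hc).symm))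
        exact ⟨x, h1, by rw [P.mu_other A hc h2 h4, h3]⟩
    · suffices h : ∃ x, P.ln x (some m) = P.ln x₀ (some m) ∧ m ≠ P.mu A x ∧ P.rho' A x m = a by
        obtain ⟨x, h1, h2, h3⟩ := h
        exact ⟨⟨(x, some m), h1⟩, by simp only [if_neg h2, h3]⟩
      obtain ⟨x, h1, h2⟩ := hpt a
      have hxU : P.ln x none ≠ P.ln P.w none := h2 ▸ P.xx_not A ha
      have hxw : x ≠ P.w := fun e => hxU (by rw [e])
      by_cases hmu : m = P.mu A x
      swap
      · exact ⟨x, h1, hmu, by rw [rho', if_neg hxw, P.rho_eq A ha h2]⟩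
      by_cases hxx : x = P.xx A a
      · rw [hxx, P.mu_xx A ha] at hmu
        refine ⟨P.w, ?_, ?_, ?_⟩
        · rw [← h1, hxx, hmu, P.xx_w A ha]
        · rw [mu_w, hmu]; exact mm_ne A ha
        · rw [rho', if_pos rfl, hmu, mm_mm]
      · rw [P.mu_other A ha h2 hxx] at hmu
        have hn : P.ln x none ≠ P.ln (P.yy A a) none := by rw [yy_U]; exact hxU
        have h3 := P.dir_spec A hn
        rw [← hmu] at h3
        refine ⟨P.yy A a, h3.symm.trans h1, ?_, ?_⟩
        · rw [P.mu_yy A ha]
          intro e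
          have h4 := P.yy_xx A ha
          rw [← e] at h4
          exact hxx (P.uniq _ _ _ _ hsn (h3.trans h4) h2)
        · rw [rho', if_neg (P.yy_ne A ha), rho_yy]
  · rintro ⟨⟨y, o⟩, h⟩
    obtain rfl : o = some m := P.cls _ _ _ _ h
    by_cases hmu : m = P.mu A y
    · simp only [lab, if_pos hmu, if_true]
    · simp only [lab, if_neg hmu, if_neg (P.rho'_ne A hmu)]

theorem lab_avoid (e : J × Option M) : e.2 ∉ col' A (P.lab A e) := by
  rcases e with ⟨x, _ | m⟩
  · simp only [lab]
    split_ifs <;> simp [col']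
  · simp only [lab]
    split_ifs with h
    · simp [col']
    · simpa [col'] using A.avoid _ m (P.rho'_ne A h)

include A in
theorem exists_colouring [Finite J] [Finite M] :
    ∃ c : J → Option M → Option M, (∀ x o, c x o ≠ o) ∧ (∀ x, Injective (c x)) ∧
      ∀ x y o, P.ln x o = P.ln y o → c x o = c y o → x = y := by
  obtain ⟨c, h1, h2⟩ := labelled_colouring (fun e : J × Option M => e.1)
    (fun e => P.ln e.1 e.2) (P.lab A) (col' A) (P.good_point A) (fun l => by
      by_cases h : ∃ e : J × Option M, P.ln e.1 e.2 = l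
      · obtain ⟨⟨x, _ | m⟩, rfl⟩ := h
        · exact P.good_vertical A x
        · exact P.good_line A x m
      · have : IsEmpty {e : J × Option M // P.ln e.1 e.2 = l} := ⟨fun e => h ⟨e.1, e.2⟩⟩
        exact ⟨fun k => Or.inl Nat.card_of_isEmpty, fun i => isEmptyElim i⟩)
  refine ⟨fun x o => c (x, o), fun x o e => P.lab_avoid A (x, o) ?_, fun x o o' e => ?_,
    fun x y o e e' => ?_⟩
  · have := h1 (x, o)
    rwa [show c (x, o) = o from e] at this
  · exact congrArg Prod.snd (h2 (x, o) (x, o') (Or.inl rfl) e)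
  · exact congrArg Prod.fst (h2 (x, o) (y, o) (Or.inr e) e')

end Pl

end Pool.Agent.Lib.MP_9dc2ba_co
end
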