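import Mathlib
import Pool.Agent.Lib.MP_9dc2ba_co.Net

/-!
Labelled arrays of every order at least seven.
-/

open Finset Function

namespace Pool.Agent.Lib.MP_9dc2ba_co

/-- indicator -/
def ind {α : Type*} [DecidableEq α] (a b : α) : ℕ := if a = b then 1 else 0

theorem card_eq_sum_ind {ι K : Type*} [Fintype ι] [DecidableEq K] (f : ι → K) (k : K) :
    Nat.card {i // f i = k} = ∑ i, ind (f i) k := by
  rw [Nat.card_eq_fintype_card, Fintype.card_subtype, card_filter]
  rfl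

theorem good_of_sum {ι K C : Type*} [Fintype ι] [DecidableEq K] {col : K → Finset C} {f : ι → K}
    (h1 : ∀ k, ∑ i, ind (f i) k = 0 ∨ ∑ i, ind (f i) k = (col k).card)
    (h2 : ∀ i j, f i ≠ f j → Disjoint (col (f i)) (col (f j))) : Good col f :=
  ⟨fun k => by rw [card_eq_sum_ind]; exact h1 k, h2⟩

theorem sum_zmod {K₀ t : ℕ} [NeZero (K₀ + t)] (g : ℕ → ℕ) (hg : ∀ s, K₀ ≤ s → g s = g K₀)
    (e : ZMod (K₀ + t) ≃ ZMod (K₀ + t)) :
    ∑ c, g (e c).val = ∑ s ∈ range K₀, g s + t * g K₀ := by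
  rw [Equiv.sum_comp e (fun c => g c.val)]
  have h1 : ∑ c : ZMod (K₀ + t), g c.val = ∑ s ∈ range (K₀ + t), g s := by
    refine sum_bij (fun c _ => c.val) (fun c _ => mem_range.2 (ZMod.val_lt c))
      (fun a _ b _ h => ZMod.val_injective _ h) (fun s hs => ?_) (fun _ _ => rfl)
    exact ⟨(s : ZMod (K₀ + t)), mem_univ _, ZMod.val_cast_of_lt (mem_range.1 hs)⟩
  rw [h1, sum_range_add, sum_congr rfl (fun s _ => hg (K₀ + s) (Nat.le_add_right _ _))]
  simp

/-- The finite data from which an infinite family of labelled arrays is built. -/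
structure Core (r l K₀ : ℕ) where
  p : ℕ
  colS : Fin l → Finset (Fin (r + 1))
  N : ZMod 3 → ℕ → Option (Fin l)
  dS : Fin (r + 1) → ZMod 3
  cB : ZMod 3 ⊕ Fin r → ZMod 3 → ℕ → ZMod 3 ⊕ Fin l
  cS : ZMod 3 ⊕ Fin r → Fin (r + 1) → ZMod 3 ⊕ Fin l

namespace Core

variable {r l K₀ : ℕ} (D : Core r l K₀)

/-- entries of the typed rows -/
def nl (τ T : ZMod 3) (s : ℕ) : ZMod 3 ⊕ Fin l :=
  (D.N (T - τ) (min s K₀)).elim (.inl (-τ - T)) .inr

/-- entries of the core rows -/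
def cb (u : ZMod 3 ⊕ Fin r) (T : ZMod 3) (s : ℕ) : ZMod 3 ⊕ Fin l := D.cB u T (min s K₀)

/-- size of a colour set for the smallest member of the family -/
def size : ZMod 3 ⊕ Fin l → ℕ
  | .inl _ => K₀
  | .inr k => (D.colS k).card

/-- growth of the size of a colour set -/
def big : ZMod 3 ⊕ Fin l → ℕ
  | .inl _ => 1
  | .inr _ => 0

/-- compatible labels -/
def compat : ZMod 3 ⊕ Fin l → ZMod 3 ⊕ Fin l → Prop
  | .inr a, .inr b => a = b ∨ Disjoint (D.colS a) (D.colS b)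
  | _, _ => True

instance (a b : ZMod 3 ⊕ Fin l) : Decidable (D.compat a b) := by
  rcases a with a | a <;> rcases b with b | b <;> unfold compat <;> infer_instance

/-- the two admissible pairs of a count and its growth -/
def ok (k : ZMod 3 ⊕ Fin l) (A B G : ℕ) : Prop :=
  (A = B ∧ G = 0) ∨ (A = B + D.size k ∧ G = big k)

instance (k : ZMod 3 ⊕ Fin l) (A B G : ℕ) : Decidable (D.ok k A B G) := by
  unfold ok; infer_instance

/-- the finite conditions on the data -/
structure Valid : Prop where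
  hp : D.p < K₀
  hK : 1 < K₀
  dS_ne : ∀ i, D.dS i ≠ 0
  dS_zero : D.dS 0 = 1
  N_p : D.N 2 D.p = none
  row_t : ∀ τ k, D.ok k (∑ T, (if T = τ then 0 else ∑ s ∈ range K₀, ind (D.nl τ T s) k) +
    ∑ i, ind (Sum.inl (τ + D.dS i)) k) 0 (∑ T, if T = τ then 0 else ind (D.nl τ T K₀) k)
  row_c : ∀ u k, D.ok k (∑ T, ∑ s ∈ range K₀, ind (D.cb u T s) k + ∑ i, ind (D.cS u i) k) 0
    (∑ T, ind (D.cb u T K₀) k)
  col_b : ∀ T k, ∀ s ∈ range (K₀ + 1), D.ok k
    (∑ T₀, (if T = T₀ + 1 then 0 else ∑ s' ∈ range K₀, ind (D.nl (T₀ + 1) T s') k) +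
      ∑ u, ind (D.cb u T s) k)
    (∑ T₀, if T = T₀ + 1 then 0 else ind (D.nl (T₀ + 1) T s) k)
    (∑ T₀, if T = T₀ + 1 then 0 else ind (D.nl (T₀ + 1) T K₀) k)
  col_s : ∀ i k, D.ok k (K₀ * ∑ T₀, ind (Sum.inl (T₀ + 1 + D.dS i)) k + ∑ u, ind (D.cS u i) k)
    (∑ T₀, ind (Sum.inl (T₀ + 1 + D.dS i)) k) (∑ T₀, ind (Sum.inl (T₀ + 1 + D.dS i)) k)
  nn : ∀ τ T τ' T', ∀ s ∈ range (K₀ + 1), ∀ s' ∈ range (K₀ + 1),
    D.compat (D.nl τ T s) (D.nl τ' T' s')
  nb : ∀ τ T u, ∀ s ∈ range (K₀ + 1), ∀ s' ∈ range (K₀ + 1),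
    D.compat (D.nl τ T s) (D.cb u T s') ∧ D.compat (D.cb u T s') (D.nl τ T s)
  bb : ∀ u T T', ∀ s ∈ range (K₀ + 1), ∀ s' ∈ range (K₀ + 1),
    D.compat (D.cb u T s) (D.cb u T' s')
  bb' : ∀ u u' T, ∀ s ∈ range (K₀ + 1), D.compat (D.cb u T s) (D.cb u' T s)
  bs : ∀ u T i, ∀ s ∈ range (K₀ + 1),
    D.compat (D.cb u T s) (D.cS u i) ∧ D.compat (D.cS u i) (D.cb u T s)
  ss : ∀ u i i', D.compat (D.cS u i) (D.cS u i')
  ss' : ∀ u u' i, D.compat (D.cS u i) (D.cS u' i)
  av_b : ∀ u T, ∀ s ∈ range (K₀ + 1), D.cb u T s ≠ .inl T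
  av_s : ∀ u i k, D.cS u i = .inr k → i ∉ D.colS k
  dg_b : ∀ T, D.cb (.inl T) T D.p = D.cS (.inl T) 0
  dg_s : ∀ i, D.cS (.inr i) i.succ = D.cS (.inr i) 0

variable (K : ℕ) [NeZero K]

/-- columns -/
abbrev Mm (r K : ℕ) := (ZMod 3 × ZMod K) ⊕ Fin (r + 1)

/-- labels -/
abbrev Lab (l K : ℕ) := (ZMod 3 ⊕ Fin l) ⊕ (ZMod 3 × ZMod K)

/-- colour sets -/
def col : Lab l K → Finset (Mm r K)
  | .inl (.inl T) => univ.map ⟨fun c => .inl (T, c), fun a b h => by simpa using h⟩
  | .inl (.inr k) => (D.colS k).map Function.Embedding.inr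
  | .inr x => {.inl x}

/-- typed rows -/
def typed (τ : ZMod 3) (j : ZMod K) : Mm r K → Lab l K
  | .inl (T, c) => if T = τ then .inr (τ, c + j) else .inl (D.nl τ T (c - j).val)
  | .inr i => .inl (.inl (τ + D.dS i))

/-- core rows -/
def core (u : ZMod 3 ⊕ Fin r) : Mm r K → Lab l K
  | .inl (T, c) => .inl (D.cb u T c.val)
  | .inr i => .inl (D.cS u i)

/-- all rows -/
def rows : (ZMod 3 × ZMod K) ⊕ Fin r → Mm r K → Lab l K
  | .inl (T₀, j) => if j = 0 then D.core K (.inl T₀) else D.typed K (T₀ + 1) j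
  | .inr i => D.core K (.inr i)

theorem nl_min (τ T : ZMod 3) (s : ℕ) : D.nl τ T s = D.nl τ T (min s K₀) := by simp [nl]

theorem cb_min (u : ZMod 3 ⊕ Fin r) (T : ZMod 3) (s : ℕ) :
    D.cb u T s = D.cb u T (min s K₀) := by simp [cb]

theorem min_mem (s : ℕ) : min s K₀ ∈ range (K₀ + 1) := mem_range.2 (by omega)

theorem disj_inl {a b : ZMod 3 ⊕ Fin l} (h : D.compat a b)
    (hne : (Sum.inl a : Lab l K) ≠ .inl b) :
    Disjoint (D.col K (.inl a)) (D.col K (.inl b)) := by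
  rcases a with a | a <;> rcases b with b | b
  · rw [disjoint_left]
    intro x hx hx'
    simp only [col, mem_map, mem_univ, true_and, Function.Embedding.coeFn_mk] at hx hx'
    obtain ⟨c, rfl⟩ := hx
    obtain ⟨c', h'⟩ := hx'
    simp only [Sum.inl.injEq, Prod.mk.injEq] at h'
    exact hne (by rw [h'.1])
  · simp [col, disjoint_left]
  · simp [col, disjoint_left]
  · rcases h with h | h
    · exact absurd (by rw [h]) hne
    · simpa [col, disjoint_map] using h

theorem disj_expl {a : ZMod 3 ⊕ Fin l} {x : ZMod 3 × ZMod K} (h : a ≠ .inl x.1) :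
    Disjoint (D.col K (.inr x)) (D.col K (.inl a)) := by
  rcases a with a | a
  · simp only [col, disjoint_singleton_left, mem_map, mem_univ, true_and,
      Function.Embedding.coeFn_mk, Sum.inl.injEq, not_exists]
    rintro c rfl
    exact h rfl
  · simp [col]

theorem disj_inr {x y : ZMod 3 × ZMod K} (h : (Sum.inr x : Lab l K) ≠ .inr y) :
    Disjoint (D.col K (.inr x)) (D.col K (.inr y)) := by
  simpa [col] using h

theorem card_col (t : ℕ) [NeZero (K₀ + t)] (k : ZMod 3 ⊕ Fin l) :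
    (D.col (K₀ + t) (.inl k)).card = D.size k + t * big k := by
  rcases k with k | k <;> simp [col, size, big]

theorem ok_out {k : ZMod 3 ⊕ Fin l} {A B G n t : ℕ} [NeZero (K₀ + t)] (h : D.ok k A B G)
    (hn : n + B = A + t * G) : n = 0 ∨ n = (D.col (K₀ + t) (.inl k)).card := by
  rw [card_col]
  rcases h with ⟨h1, h2⟩ | ⟨h1, h2⟩
  · left; rw [h2] at hn; omega
  · right; rw [h2] at hn; omega

theorem nl_ne (τ T : ZMod 3) (h : T ≠ τ) (s : ℕ) :
    D.nl τ T s ≠ .inl τ ∧ D.nl τ T s ≠ .inl T := by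
  have key : ∀ τ T : ZMod 3, T ≠ τ → -τ - T ≠ τ ∧ -τ - T ≠ T := by decide
  unfold nl
  rcases D.N (T - τ) (min s K₀) with _ | k
  · simpa using key τ T h
  · simp

theorem ind_inl {α β : Type*} [DecidableEq α] [DecidableEq β] (a b : α) :
    ind (Sum.inl a : α ⊕ β) (.inl b) = ind a b := by simp [ind]

theorem ind_inl_inr {α β : Type*} [DecidableEq α] [DecidableEq β] (a : α) (b : β) :
    ind (Sum.inl a : α ⊕ β) (.inr b) = 0 := by simp [ind]

theorem ind_inr_inl {α β : Type*} [DecidableEq α] [DecidableEq β] (a : α) (b : β) :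
    ind (Sum.inr b : α ⊕ β) (.inl a) = 0 := by simp [ind]

variable {D} (hD : D.Valid) (t : ℕ) [NeZero (K₀ + t)]
include hD

theorem good_typed (τ : ZMod 3) (j : ZMod (K₀ + t)) :
    Good (D.col (K₀ + t)) (D.typed (K₀ + t) τ j) := by
  refine good_of_sum (fun k => ?_) ?_
  · rw [Fintype.sum_sum_type, Fintype.sum_prod_type]
    rcases k with k | ⟨τ', c'⟩
    · refine D.ok_out (hD.row_t τ k) ?_
      have : ∀ T, ∑ c, ind (D.typed (K₀ + t) τ j (.inl (T, c))) (.inl k) =
          (if T = τ then 0 else ∑ s ∈ range K₀, ind (D.nl τ T s) k) +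
            t * (if T = τ then 0 else ind (D.nl τ T K₀) k) := by
        intro T
        by_cases hT : T = τ
        · simp [typed, hT, ind_inr_inl]
        · simp only [typed, if_neg hT, ind_inl]
          exact sum_zmod (fun s => ind (D.nl τ T s) k)
            (fun s hs => by rw [nl_min, min_eq_right hs]) (Equiv.subRight j)
      simp only [this, sum_add_distrib, ← mul_sum]
      simp only [typed, ind_inl]
      ring
    · have : ∀ T, ∑ c, ind (D.typed (K₀ + t) τ j (.inl (T, c))) (.inr (τ', c')) =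
          if T = τ ∧ τ = τ' then 1 else 0 := by
        intro T
        by_cases hT : T = τ
        · by_cases h2 : τ = τ'
          · simp [typed, hT, h2, ind, ← eq_sub_iff_add_eq]
          · simp [typed, hT, h2, ind]
        · simp [typed, hT, ind_inl_inr]
      simp only [this]
      by_cases h2 : τ = τ'
      · right; simp [h2, typed, ind_inl_inr, col]
      · left; simp [h2, typed, ind_inl_inr]
  · have hs : ∀ i, (Sum.inl (τ + D.dS i) : ZMod 3 ⊕ Fin l) ≠ .inl τ := fun i => by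
      simpa using hD.dS_ne i
    rintro (⟨T, c⟩ | i) (⟨T', c'⟩ | i') <;> simp only [typed]
    · split_ifs with h1 h2 h2 <;> intro h
      · exact D.disj_inr _ h
      · exact D.disj_expl _ (D.nl_ne τ T' h2 _).1
      · exact (D.disj_expl _ (D.nl_ne τ T h1 _).1).symm
      · refine D.disj_inl _ ?_ h
        rw [nl_min, D.nl_min τ T']
        exact hD.nn _ _ _ _ _ (min_mem _) _ (min_mem _)
    · split_ifs with h1 <;> intro h
      · exact D.disj_expl _ (hs i')
      · refine D.disj_inl _ ?_ h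
        rcases D.nl τ T (c - j).val with a | a <;> trivial
    · split_ifs with h1 <;> intro h
      · exact (D.disj_expl _ (hs i)).symm
      · exact D.disj_inl _ (by rcases D.nl τ T' (c' - j).val with a | a <;> trivial) h
    · intro h
      exact D.disj_inl _ trivial h

theorem good_core (u : ZMod 3 ⊕ Fin r) : Good (D.col (K₀ + t)) (D.core (K₀ + t) u) := by
  refine good_of_sum (fun k => ?_) ?_
  · rw [Fintype.sum_sum_type, Fintype.sum_prod_type]
    rcases k with k | x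
    · refine D.ok_out (hD.row_c u k) ?_
      have : ∀ T, ∑ c : ZMod (K₀ + t), ind (D.cb u T c.val) k =
          ∑ s ∈ range K₀, ind (D.cb u T s) k + t * ind (D.cb u T K₀) k := fun T =>
        sum_zmod (fun s => ind (D.cb u T s) k)
          (fun s hs => by rw [cb_min, min_eq_right hs]) (Equiv.refl _)
      simp only [core, ind_inl, this, sum_add_distrib, ← mul_sum]
      ring
    · left
      simp [core, ind_inl_inr]
  · rintro (⟨T, c⟩ | i) (⟨T', c'⟩ | i') <;> simp only [core] <;> intro h <;>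
      refine D.disj_inl _ ?_ h
    · rw [cb_min, D.cb_min u T']
      exact hD.bb _ _ _ _ (min_mem _) _ (min_mem _)
    · rw [cb_min]
      exact (hD.bs _ _ _ _ (min_mem _)).1
    · rw [cb_min]
      exact (hD.bs _ _ _ _ (min_mem _)).2
    · exact hD.ss _ _ _

omit hD in
theorem sum_split (f g : ZMod (K₀ + t) → ℕ) (a : ℕ) (h : ∀ j, j ≠ 0 → f j = g j) (h0 : f 0 = a) :
    ∑ j, f j + g 0 = a + ∑ j, g j := by
  rw [← add_sum_erase _ f (mem_univ 0), ← add_sum_erase _ g (mem_univ 0), h0,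
    sum_congr rfl (fun j hj => h j (ne_of_mem_erase hj))]
  ring

theorem good_colB (T : ZMod 3) (c : ZMod (K₀ + t)) :
    Good (D.col (K₀ + t)) (fun a => D.rows (K₀ + t) a (.inl (T, c))) := by
  refine good_of_sum (fun k => ?_) ?_
  · rw [Fintype.sum_sum_type, Fintype.sum_prod_type]
    rcases k with k | ⟨τ', c'⟩
    · refine D.ok_out (hD.col_b T k _ (min_mem c.val)) ?_
      have : ∀ T₀, ∑ j, ind (D.rows (K₀ + t) (.inl (T₀, j)) (.inl (T, c))) (.inl k) +
          (if T = T₀ + 1 then 0 else ind (D.nl (T₀ + 1) T (min c.val K₀)) k) =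
          ind (D.cb (.inl T₀) T (min c.val K₀)) k +
          ((if T = T₀ + 1 then 0 else ∑ s ∈ range K₀, ind (D.nl (T₀ + 1) T s) k) +
            t * (if T = T₀ + 1 then 0 else ind (D.nl (T₀ + 1) T K₀) k)) := by
        intro T₀
        have h1 := sum_split t
          (fun j => ind (D.rows (K₀ + t) (.inl (T₀, j)) (.inl (T, c))) (.inl k))
          (fun j => if T = T₀ + 1 then 0 else ind (D.nl (T₀ + 1) T (c - j).val) k)
          (ind (D.cb (.inl T₀) T (min c.val K₀)) k)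
          (fun j hj => by
            simp only [rows, if_neg hj, typed]
            split_ifs
            · exact ind_inr_inl _ _
            · exact ind_inl _ _)
          (by simp only [rows, if_true, core, ind_inl]; rw [cb_min])
        simp only [sub_zero] at h1
        rw [← nl_min, h1]
        by_cases hT : T = T₀ + 1
        · simp [hT]
        · simp only [if_neg hT]
          congr 1
          exact sum_zmod (fun s => ind (D.nl (T₀ + 1) T s) k)
            (fun s hs => by rw [nl_min, min_eq_right hs]) (Equiv.subLeft c)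
      have h2 := sum_congr rfl (fun T₀ (_ : T₀ ∈ univ) => this T₀)
      simp only [sum_add_distrib, ← mul_sum] at h2
      rw [Fintype.sum_sum_type]
      simp only [rows, core, ind_inl, ← D.cb_min] at h2 ⊢
      omega
    · have : ∀ T₀, ∑ j, ind (D.rows (K₀ + t) (.inl (T₀, j)) (.inl (T, c))) (.inr (τ', c')) =
          if T₀ = T - 1 ∧ T = τ' ∧ c ≠ c' then 1 else 0 := by
        intro T₀
        have h1 := sum_split t
          (fun j => ind (D.rows (K₀ + t) (.inl (T₀, j)) (.inl (T, c))) (.inr (τ', c')))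
          (fun j => if T = T₀ + 1 ∧ T = τ' ∧ c + j = c' then 1 else 0) 0
          (fun j hj => by
            simp only [rows, if_neg hj, typed]
            by_cases hT : T = T₀ + 1
            · simp [← hT, ind]
            · simp [hT, ind_inl_inr])
          (by simp only [rows, if_true, core, ind_inl_inr])
        have h4 : ∑ j, (if T = T₀ + 1 ∧ T = τ' ∧ c + j = c' then 1 else 0) =
            if T = T₀ + 1 ∧ T = τ' then 1 else 0 := by
          by_cases h5 : T = T₀ + 1 ∧ T = τ'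
          · simp only [h5.1.symm, h5.2.symm, true_and, and_self, if_true,
              ← eq_sub_iff_add_eq', sum_ite_eq', mem_univ]
          · rw [if_neg h5]
            exact sum_eq_zero fun j _ => if_neg fun h => h5 ⟨h.1, h.2.1⟩
        simp only [add_zero, zero_add, h4] at h1
        simp only [eq_sub_iff_add_eq, eq_comm (a := T₀ + 1)]
        revert h1
        generalize ∑ j, ind (D.rows (K₀ + t) (.inl (T₀, j)) (.inl (T, c))) (.inr (τ', c')) = n
        intro h1
        split_ifs at h1 ⊢ <;> first | omega | tauto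
      simp only [this]
      by_cases h2 : T = τ' ∧ c ≠ c'
      · right; simp [h2, rows, core, ind_inl_inr, col]
      · left; simp [h2, rows, core, ind_inl_inr]
  · have hform : ∀ a, (∃ u, D.rows (K₀ + t) a (.inl (T, c)) = .inl (D.cb u T (min c.val K₀))) ∨
        (∃ τ s, T ≠ τ ∧ D.rows (K₀ + t) a (.inl (T, c)) = .inl (D.nl τ T (min s K₀))) ∨
        ∃ c', D.rows (K₀ + t) a (.inl (T, c)) = .inr (T, c') := by
      rintro (⟨T₀, j⟩ | i)
      · by_cases hj : j = 0
        · exact Or.inl ⟨.inl T₀, by simp only [rows, if_pos hj, core]; rw [cb_min]⟩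
        · by_cases hT : T = T₀ + 1
          · exact Or.inr (Or.inr ⟨c + j, by simp only [rows, if_neg hj, typed, hT, if_true]⟩)
          · exact Or.inr (Or.inl ⟨T₀ + 1, (c - j).val, hT, by
              simp only [rows, if_neg hj, typed, if_neg hT]; rw [nl_min]⟩)
      · exact Or.inl ⟨.inr i, by simp only [rows, core]; rw [cb_min]⟩
    intro a a'
    rcases hform a with ⟨u, h⟩ | ⟨τ, s, hτ, h⟩ | ⟨x, h⟩ <;>
      rcases hform a' with ⟨u', h'⟩ | ⟨τ', s', hτ', h'⟩ | ⟨x', h'⟩ <;> simp only [h, h'] <;>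
      intro hne
    · exact D.disj_inl _ (hD.bb' _ _ _ _ (min_mem _)) hne
    · exact D.disj_inl _ (hD.nb _ _ _ _ (min_mem _) _ (min_mem _)).2 hne
    · exact (D.disj_expl _ (x := (T, x')) (hD.av_b _ _ _ (min_mem _))).symm
    · exact D.disj_inl _ (hD.nb _ _ _ _ (min_mem _) _ (min_mem _)).1 hne
    · exact D.disj_inl _ (hD.nn _ _ _ _ _ (min_mem _) _ (min_mem _)) hne
    · exact (D.disj_expl _ (x := (T, x')) (D.nl_ne _ _ hτ _).2).symm
    · exact D.disj_expl _ (x := (T, x)) (hD.av_b _ _ _ (min_mem _))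
    · exact D.disj_expl _ (x := (T, x)) (D.nl_ne _ _ hτ' _).2
    · exact D.disj_inr _ hne

theorem good_colS (i : Fin (r + 1)) :
    Good (D.col (K₀ + t)) (fun a => D.rows (K₀ + t) a (.inr i)) := by
  refine good_of_sum (fun k => ?_) ?_
  · rw [Fintype.sum_sum_type, Fintype.sum_prod_type]
    rcases k with k | x
    · refine D.ok_out (hD.col_s i k) ?_
      have : ∀ T₀, ∑ j, ind (D.rows (K₀ + t) (.inl (T₀, j)) (.inr i)) (.inl k) +
          ind (Sum.inl (T₀ + 1 + D.dS i)) k =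
          ind (D.cS (.inl T₀) i) k + (K₀ + t) * ind (Sum.inl (T₀ + 1 + D.dS i)) k := by
        intro T₀
        have h1 := sum_split t
          (fun j => ind (D.rows (K₀ + t) (.inl (T₀, j)) (.inr i)) (.inl k))
          (fun _ => ind (Sum.inl (T₀ + 1 + D.dS i)) k) (ind (D.cS (.inl T₀) i) k)
          (fun j hj => by simp only [rows, if_neg hj, typed, ind_inl])
          (by simp only [rows, if_true, core, ind_inl])
        simpa using h1
      have h2 := sum_congr rfl (fun T₀ (_ : T₀ ∈ univ) => this T₀)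
      simp only [sum_add_distrib, ← mul_sum] at h2
      rw [Fintype.sum_sum_type]
      simp only [rows, core, ind_inl] at h2 ⊢
      rw [add_mul] at h2
      omega
    · left
      have : ∀ T₀ j, ind (D.rows (K₀ + t) (.inl (T₀, j)) (.inr i)) (.inr x) = 0 := by
        intro T₀ j
        by_cases hj : j = 0 <;> simp [rows, hj, core, typed, ind_inl_inr]
      simp only [this]
      simp [rows, core, ind_inl_inr]
  · have hform : ∀ a, (∃ u, D.rows (K₀ + t) a (.inr i) = .inl (D.cS u i)) ∨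
        ∃ T, D.rows (K₀ + t) a (.inr i) = .inl (.inl T) := by
      rintro (⟨T₀, j⟩ | i')
      · by_cases hj : j = 0
        · exact Or.inl ⟨.inl T₀, by simp only [rows, if_pos hj, core]⟩
        · exact Or.inr ⟨_, by simp only [rows, if_neg hj, typed]; rfl⟩
      · exact Or.inl ⟨.inr i', by simp only [rows, core]⟩
    intro a a'
    rcases hform a with ⟨u, h⟩ | ⟨T, h⟩ <;> rcases hform a' with ⟨u', h'⟩ | ⟨T', h'⟩ <;>
      simp only [h, h'] <;> intro hne <;> refine D.disj_inl _ ?_ hne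
    · exact hD.ss' _ _ _
    · rcases D.cS u i with a | a <;> trivial
    · rcases D.cS u' i with a | a <;> trivial
    · trivial

theorem avoid_core (u : ZMod 3 ⊕ Fin r) (m : Mm r (K₀ + t)) :
    m ∉ D.col (K₀ + t) (D.core (K₀ + t) u m) := by
  rcases m with ⟨T, c⟩ | i <;> simp only [core]
  · have h := D.disj_expl (K₀ + t) (x := (T, c)) (hD.av_b u T _ (min_mem c.val))
    rw [← cb_min] at h
    exact disjoint_singleton_left.1 h
  · have h := hD.av_s u i
    rcases hc : D.cS u i with a | a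
    · simp [col]
    · simpa [col] using h a hc

theorem avoid_rows (a : (ZMod 3 × ZMod (K₀ + t)) ⊕ Fin r) (m : Mm r (K₀ + t)) :
    m ∉ D.col (K₀ + t) (D.rows (K₀ + t) a m) := by
  rcases a with ⟨T₀, j⟩ | i
  · by_cases hj : j = 0
    · simp only [rows, if_pos hj]
      exact avoid_core hD t _ m
    · simp only [rows, if_neg hj]
      rcases m with ⟨T, c⟩ | i <;> simp only [typed]
      · split_ifs with h
        · simp [col, hj]
        · exact disjoint_singleton_left.1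
            (D.disj_expl (K₀ + t) (x := (T, c)) (D.nl_ne _ _ h _).2)
      · simp [col]
  · exact avoid_core hD t _ m

omit hD in
variable (D) in
/-- the column attached to a row -/
def sig : (ZMod 3 × ZMod (K₀ + t)) ⊕ Fin r → {a : Mm r (K₀ + t) // a ≠ .inr 0}
  | .inl (T, j) => ⟨.inl (T, j + D.p), by simp⟩
  | .inr i => ⟨.inr i.succ, by simp⟩

omit hD in
theorem sig_bij : Bijective (D.sig t) := by
  constructor
  · rintro (⟨T, j⟩ | i) (⟨T', j'⟩ | i') h <;> simp_all [sig]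
  · rintro ⟨⟨T, c⟩ | i, h⟩
    · exact ⟨.inl (T, c - D.p), by simp [sig]⟩
    · obtain rfl | ⟨i, rfl⟩ := i.eq_zero_or_eq_succ
      · exact absurd rfl h
      · exact ⟨.inr i, rfl⟩

theorem diag_rows (a : (ZMod 3 × ZMod (K₀ + t)) ⊕ Fin r) :
    D.rows (K₀ + t) a (D.sig t a).1 = D.rows (K₀ + t) a (.inr 0) := by
  have hp : (D.p : ZMod (K₀ + t)).val = D.p :=
    ZMod.val_cast_of_lt (lt_of_lt_of_le hD.hp (Nat.le_add_right _ _))
  rcases a with ⟨T₀, j⟩ | i
  · by_cases hj : j = 0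
    · simp only [rows, sig, core, hj, zero_add, hp, if_true]
      rw [hD.dg_b]
    · have h1 : ∀ T₀ : ZMod 3, T₀ ≠ T₀ + 1 ∧ T₀ - (T₀ + 1) = 2 ∧ -(T₀ + 1) - T₀ = T₀ + 1 + 1 := by
        decide
      simp only [rows, if_neg hj, sig, typed, if_neg (h1 T₀).1, add_sub_cancel_left, hp, nl,
        (h1 T₀).2.1, (h1 T₀).2.2, min_eq_left hD.hp.le, hD.N_p, hD.dS_zero, Option.elim_none]
  · simp only [rows, sig, core]
    rw [hD.dg_s]

theorem exists_arr : Nonempty (Arr (Mm r (K₀ + t)) (Lab l (K₀ + t))) := by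
  classical
  let e := Equiv.ofBijective _ (sig_bij (D := D) t)
  let κ : Mm r (K₀ + t) → Mm r (K₀ + t) → Lab l (K₀ + t) := fun a =>
    if h : a ≠ .inr 0 then D.rows (K₀ + t) (e.symm ⟨a, h⟩) else fun _ => .inr (0, 0)
  have hκ : ∀ a (h : a ≠ .inr 0), κ a = D.rows (K₀ + t) (e.symm ⟨a, h⟩) := fun a h => dif_pos h
  refine ⟨⟨.inr 0, .inl (0, 0), by simp, κ, D.col (K₀ + t), fun a h => ?_, fun m => ?_,
    fun a m h => ?_, fun a h => ?_⟩⟩
  · rw [hκ a h]
    rcases e.symm ⟨a, h⟩ with ⟨T₀, j⟩ | i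
    · by_cases hj : j = 0
      · simp only [rows, if_pos hj]; exact good_core hD t _
      · simp only [rows, if_neg hj]; exact good_typed hD t _ _
    · exact good_core hD t _
  · have : Good (D.col (K₀ + t)) (fun a => D.rows (K₀ + t) a m) := by
      rcases m with ⟨T, c⟩ | i
      · exact good_colB hD t T c
      · exact good_colS hD t i
    exact this.of_bijective e.symm e.symm.bijective fun a => by rw [hκ a.1 a.2]
  · rw [hκ a h]; exact avoid_rows hD t _ m
  · rw [hκ a h, ← diag_rows hD t]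
    congr 1
    exact congrArg Subtype.val (e.apply_symm_apply ⟨a, h⟩).symm

end Core

/-- decoding of labels -/
def dec (l : ℕ) [NeZero l] (n : ℕ) : ZMod 3 ⊕ Fin l :=
  if n < 3 then .inl (n : ZMod 3) else .inr (Fin.ofNat l (n - 3))

/-- index of a core row -/
def rix {r : ℕ} : ZMod 3 ⊕ Fin r → ℕ
  | .inl T => T.val
  | .inr i => 3 + i.val

/-- data from tables -/
def mkCore (r l K₀ p : ℕ) [NeZero l] (cs : List (Finset (Fin (r + 1))))
    (n : List (List (Fin l))) (b : List (List (List ℕ))) (g : List ℕ) (s : List (List ℕ)) :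
    Core r l K₀ where
  p := p
  colS k := cs.getD k.val ∅
  N d i := (n.getD d.val [])[i]?
  dS i := if i.val < p then 1 else 2
  cB u T i := if i < K₀ then dec l (((b.getD (rix u) []).getD T.val []).getD i 0)
    else .inl (T + g.getD (rix u) 0)
  cS u i := dec l ((s.getD (rix u) []).getD i.val 0)

/-- orders `3K + 1` -/
def core0 : Core 0 1 2 := mkCore 0 1 2 1 [{0}] [[], [], [0]]
  [[[1, 2], [3, 0], [1, 0]], [[2, 1], [2, 0], [3, 1]], [[3, 2], [0, 2], [0, 1]]] [2, 2, 1]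
  [[2], [0], [1]]

/-- orders `3K + 3` -/
def core2 : Core 2 4 2 := mkCore 2 4 2 1 [{0}, {1}, {2}, {1, 2}] [[], [3, 3], [0]]
  [[[1, 2], [0, 0], [3, 1]], [[2, 1], [2, 6], [0, 0]], [[1, 1], [2, 2], [0, 6]],
    [[3, 2], [6, 0], [6, 0]], [[6, 6], [3, 2], [1, 1]]] [2, 2, 1, 1, 1]
  [[2, 5, 4], [6, 3, 1], [6, 0, 3], [1, 1, 2], [0, 2, 0]]

/-- orders `3K + 5` -/
def core4 : Core 4 7 3 := mkCore 4 7 3 2 [{0}, {1}, {2}, {3}, {4}, {1, 2}, {3, 4}]
  [[], [5, 6, 6], [0, 5]]
  [[[1, 1, 2], [3, 0, 2], [0, 0, 1]], [[2, 1, 1], [2, 2, 9], [0, 0, 0]],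
    [[1, 1, 1], [0, 2, 0], [8, 8, 9]], [[8, 2, 2], [8, 0, 2], [0, 9, 0]],
    [[1, 8, 1], [2, 8, 2], [3, 0, 1]], [[3, 2, 2], [2, 9, 0], [1, 1, 0]],
    [[2, 9, 9], [0, 2, 0], [1, 1, 1]]] [2, 2, 2, 1, 1, 1, 1]
  [[2, 9, 9, 8, 8], [9, 5, 4, 1, 3], [9, 3, 2, 0, 2], [1, 1, 9, 3, 1], [0, 2, 0, 7, 6],
    [8, 9, 1, 8, 0], [8, 0, 3, 2, 8]]

theorem valid0 : core0.Valid := by constructor <;> decide +kernel

theorem valid2 : core2.Valid := by constructor <;> decide +kernel

theorem valid4 : core4.Valid := by constructor <;> decide +kernel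

theorem arr_of_table (q l : ℕ) (κ : Fin (q + 2) → Fin (q + 2) → Fin l)
    (col : Fin l → Finset (Fin (q + 2)))
    (h1 : ∀ a, a ≠ 0 → ∀ k, ∑ i, ind (κ a i) k = 0 ∨ ∑ i, ind (κ a i) k = (col k).card)
    (h2 : ∀ a, a ≠ 0 → ∀ i j, κ a i ≠ κ a j → Disjoint (col (κ a i)) (col (κ a j)))
    (h3 : ∀ m k, ∑ i : Fin (q + 1), ind (κ i.succ m) k = 0 ∨
      ∑ i : Fin (q + 1), ind (κ i.succ m) k = (col k).card)
    (h4 : ∀ m (i j : Fin (q + 1)), κ i.succ m ≠ κ j.succ m →
      Disjoint (col (κ i.succ m)) (col (κ j.succ m)))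
    (h5 : ∀ a m, a ≠ 0 → m ∉ col (κ a m)) (h6 : ∀ a, a ≠ 0 → κ a a = κ a 0) :
    Nonempty (Arr (Fin (q + 2)) (Fin l)) := by
  refine ⟨⟨0, 1, by simp, κ, col, fun a h => good_of_sum (h1 a h) (h2 a h), fun m => ?_, h5, h6⟩⟩
  refine (good_of_sum (h3 m) (h4 m)).of_bijective (fun a => a.1.pred a.2) ⟨?_, ?_⟩ ?_
  · intro a b h
    exact Subtype.ext (Fin.pred_inj.1 h)
  · intro i
    exact ⟨⟨i.succ, i.succ_ne_zero⟩, by simp⟩
  · intro a
    simp

/-- table of order eight -/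
def tab8 (a m : Fin 8) : Fin 11 :=
  (([[0, 0, 0, 0, 0, 0, 0, 0], [9, 9, 10, 10, 10, 0, 8, 8], [10, 9, 10, 8, 10, 8, 0, 9],
    [10, 0, 10, 10, 8, 4, 3, 8], [10, 2, 1, 10, 10, 3, 4, 0], [8, 7, 3, 4, 0, 8, 5, 6],
    [8, 6, 4, 0, 3, 7, 8, 5], [9, 5, 0, 8, 8, 6, 7, 9]] : List (List (Fin 11))).getD a []).getD m 0

/-- colour sets of order eight -/
def col8 (k : Fin 11) : Finset (Fin 8) :=
  ([{0}, {1}, {2}, {3}, {4}, {5}, {6}, {7}, {1, 2}, {3, 4}, {5, 6, 7}] :
    List (Finset (Fin 8))).getD k ∅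

/-- table of order eleven -/
def tab11 (a m : Fin 11) : Fin 15 :=
  (([[0, 0, 0, 0, 0, 0, 0, 0, 0, 0, 0], [12, 12, 14, 14, 14, 6, 7, 5, 1, 0, 2],
    [12, 14, 12, 11, 13, 14, 14, 0, 13, 11, 13], [11, 13, 13, 11, 13, 0, 4, 3, 9, 10, 8],
    [11, 12, 12, 0, 11, 7, 5, 6, 10, 8, 9], [14, 13, 13, 13, 14, 14, 0, 1, 2, 3, 4],
    [14, 0, 14, 13, 13, 3, 14, 2, 13, 4, 1], [14, 14, 0, 13, 11, 4, 11, 14, 3, 13, 13],
    [13, 2, 1, 4, 3, 14, 14, 14, 13, 13, 0], [13, 14, 13, 14, 14, 11, 11, 4, 0, 13, 3],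
    [13, 13, 14, 14, 0, 11, 3, 14, 4, 11, 13]] : List (List (Fin 15))).getD a []).getD m 0

/-- colour sets of order eleven -/
def col11 (k : Fin 15) : Finset (Fin 11) :=
  ([{0}, {1}, {2}, {3}, {4}, {5}, {6}, {7}, {8}, {9}, {10}, {1, 2}, {3, 4}, {5, 6, 7},
    {8, 9, 10}] : List (Finset (Fin 11))).getD k ∅

theorem exists_arr (q : ℕ) (hq : 7 ≤ q) :
    ∃ (M K : Type) (_ : Finite M), Nat.card M = q ∧ Nonempty (Arr M K) := by
  by_cases h8 : q = 8
  · refine ⟨Fin 8, Fin 11, inferInstance, by simp [h8], arr_of_table 6 11 tab8 col8 ?_ ?_ ?_ ?_ ?_ ?_⟩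
    all_goals decide +kernel
  by_cases h11 : q = 11
  · refine ⟨Fin 11, Fin 15, inferInstance, by simp [h11],
      arr_of_table 9 15 tab11 col11 ?_ ?_ ?_ ?_ ?_ ?_⟩
    all_goals decide +kernel
  have hcard : ∀ (r K : ℕ) [NeZero K], Nat.card (Core.Mm r K) = 3 * K + (r + 1) := by
    intro r K _
    simp [Core.Mm]
  have h : (∃ t, q = 3 * (2 + t) + (0 + 1)) ∨ (∃ t, q = 3 * (2 + t) + (2 + 1)) ∨
      ∃ t, q = 3 * (3 + t) + (4 + 1) := by
    have : q % 3 = 1 ∨ q % 3 = 0 ∨ q % 3 = 2 := by omega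
    rcases this with h | h | h
    · exact Or.inl ⟨q / 3 - 2, by omega⟩
    · exact Or.inr (Or.inl ⟨q / 3 - 3, by omega⟩)
    · exact Or.inr (Or.inr ⟨q / 3 - 4, by omega⟩)
  rcases h with ⟨t, rfl⟩ | ⟨t, rfl⟩ | ⟨t, rfl⟩
  · have : NeZero (2 + t) := ⟨by omega⟩
    exact ⟨_, _, inferInstance, hcard _ _, Core.exists_arr valid0 t⟩
  · have : NeZero (2 + t) := ⟨by omega⟩
    exact ⟨_, _, inferInstance, hcard _ _, Core.exists_arr valid2 t⟩
  · have : NeZero (3 + t) := ⟨by omega⟩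
    exact ⟨_, _, inferInstance, hcard _ _, Core.exists_arr valid4 t⟩

end Pool.Agent.Lib.MP_9dc2ba_co
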