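import Mathlib

-- part Pool.Agent.Lib.MP_9dc2ba_co.Ord
section

/-!
The ordering problem for the affine geometry of a vector space, in vector form, and the general
constructions (transport, one-dimensional extension, field extension).
-/

open Module

namespace Pool.Agent.Lib.MP_9dc2ba_co

/-- For each point `p` and each nonzero functional `f` a direction `τ p f` off the kernel of `f`,
injective (projectively) in `f` for fixed `p` and in `p` along the level sets of `f`. -/
def Ordr (F W : Type*) [Field F] [AddCommGroup W] [Module F W] : Prop :=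
  ∃ τ : W → Dual F W → W,
    (∀ p (f : Dual F W), f ≠ 0 → f (τ p f) ≠ 0) ∧
    (∀ p f g (c : F), f ≠ 0 → g ≠ 0 → τ p f = c • τ p g → ∃ c' : F, f = c' • g) ∧
    (∀ (f : Dual F W) p p' (c : F), f ≠ 0 → f p = f p' → τ p f = c • τ p' f → p = p')

variable {F : Type*} [Field F]

theorem Ordr.transport {W W' : Type*} [AddCommGroup W] [Module F W] [AddCommGroup W'] [Module F W']
    (e : W ≃ₗ[F] W') (h : Ordr F W) : Ordr F W' := by
  obtain ⟨τ, h1, h2, h3⟩ := h
  have hne : ∀ f : Dual F W', f ≠ 0 → f ∘ₗ e.toLinearMap ≠ 0 := by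
    intro f hf h
    apply hf
    ext x
    have := LinearMap.congr_fun h (e.symm x)
    simpa using this
  refine ⟨fun p f => e (τ (e.symm p) (f ∘ₗ e.toLinearMap)), ?_, ?_, ?_⟩
  · intro p f hf
    exact h1 (e.symm p) _ (hne f hf)
  · intro p f g c hf hg h
    rw [← map_smul] at h
    obtain ⟨c', hc'⟩ := h2 _ _ _ c (hne f hf) (hne g hg) (e.injective h)
    refine ⟨c', ?_⟩
    ext x
    have := LinearMap.congr_fun hc' (e.symm x)
    simpa using this
  · intro f p p' c hf hp h
    rw [← map_smul] at h
    exact e.symm.injective (h3 _ _ _ c (hne f hf) (by simpa using hp) (e.injective h))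

theorem exists_nrm (F M : Type*) [Field F] [AddCommGroup M] [Module F M] :
    ∃ (r : M → M) (N : M → F), (∀ v, v ≠ 0 → v = N v • r v) ∧
      (∀ v w (c : F), v ≠ 0 → v = c • w → r v = r w) := by
  classical
  have key : ∀ v : M, ∃ c : F, ∀ hv : v ≠ 0, v = c • (Projectivization.mk F v hv).rep := by
    intro v
    by_cases hv : v = 0
    · exact ⟨0, fun h => absurd hv h⟩
    · obtain ⟨a, ha⟩ := Projectivization.exists_smul_eq_mk_rep F v hv
      refine ⟨((a⁻¹ : Fˣ) : F), fun _ => ?_⟩
      rw [← ha, Units.smul_def, smul_smul]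
      simp
  choose N hN using key
  refine ⟨fun v => if hv : v = 0 then 0 else (Projectivization.mk F v hv).rep, N, ?_, ?_⟩
  · intro v hv
    simp only [dif_neg hv]
    exact hN v hv
  · intro v w c hv h
    have hw : w ≠ 0 := by
      rintro rfl
      exact hv (by simpa using h)
    simp only [dif_neg hv, dif_neg hw]
    congr 1
    exact (Projectivization.mk_eq_mk_iff' F v w hv hw).mpr ⟨c, h.symm⟩

theorem Ordr.normalised {W : Type*} [AddCommGroup W] [Module F W] (h : Ordr F W) :
    ∃ σ : W → Dual F W → W,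
      (∀ p (f : Dual F W), f ≠ 0 → f (σ p f) = 1) ∧
      (∀ p f g (c : F), f ≠ 0 → g ≠ 0 → σ p f = c • σ p g → ∃ c' : F, f = c' • g) ∧
      (∀ (f : Dual F W) p p', f ≠ 0 → f p = f p' → σ p f = σ p' f → p = p') := by
  obtain ⟨τ, h1, h2, h3⟩ := h
  refine ⟨fun p f => (f (τ p f))⁻¹ • τ p f, ?_, ?_, ?_⟩
  · intro p f hf
    rw [map_smul, smul_eq_mul, inv_mul_cancel₀ (h1 p f hf)]
  · intro p f g c hf hg h
    apply h2 p f g (f (τ p f) * (c * (g (τ p g))⁻¹)) hf hg
    simp only at h
    rw [mul_smul, mul_smul, ← h, smul_smul, mul_inv_cancel₀ (h1 p f hf), one_smul]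
  · intro f p p' hf hp h
    apply h3 f p p' (f (τ p f) * (f (τ p' f))⁻¹) hf hp
    simp only at h
    rw [mul_smul, ← h, smul_smul, mul_inv_cancel₀ (h1 p f hf), one_smul]

theorem Ordr.step {W : Type*} [AddCommGroup W] [Module F W] (h : Ordr F W)
    (κ : W → F → Dual F W → W × F) (φ : W → F → W → F)
    (ha : ∀ x y m, (κ x y m).2 ≠ m (κ x y m).1)
    (hb : ∀ x y m m' (c : F), κ x y m = c • κ x y m' → m = m')
    (hc : ∀ (m : Dual F W) x y x' y' (c : F), y - m x = y' - m x' → κ x y m = c • κ x' y' m →
      x = x')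
    (hd : ∀ x y d m (c : F), d ≠ 0 → κ x y m ≠ c • (d, φ x y d))
    (he : ∀ x y y' d, d ≠ 0 → φ x y d = φ x y' d → y = y') : Ordr F (W × F) := by
  classical
  obtain ⟨τ, h1, h2, h3⟩ := h
  have hval : ∀ (f : Dual F (W × F)) (x : W) (y : F),
      f (x, y) = (f ∘ₗ LinearMap.inl F W F) x + y * f (0, 1) := by
    intro f x y
    have : (x, y) = (x, (0 : F)) + y • ((0 : W), (1 : F)) := by simp
    rw [this, map_add, map_smul]
    simp
  have hg : ∀ f : Dual F (W × F), f ≠ 0 → f (0, 1) = 0 → f ∘ₗ LinearMap.inl F W F ≠ 0 := by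
    intro f hf hs h
    apply hf
    apply LinearMap.ext
    rintro ⟨x, y⟩
    rw [hval, h, hs]
    simp
  have hτ : ∀ x (g : Dual F W), g ≠ 0 → τ x g ≠ 0 := by
    intro x g hg h
    exact h1 x g hg (by rw [h, map_zero])
  refine ⟨fun p f => if f (0, 1) = 0 then
      (τ p.1 (f ∘ₗ LinearMap.inl F W F), φ p.1 p.2 (τ p.1 (f ∘ₗ LinearMap.inl F W F)))
    else κ p.1 p.2 (-(f (0, 1))⁻¹ • (f ∘ₗ LinearMap.inl F W F)), ?_, ?_, ?_⟩
  · rintro ⟨x, y⟩ f hf
    simp only
    split_ifs with hs
    · rw [hval, hs, mul_zero, add_zero]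
      exact h1 _ _ (hg f hf hs)
    · have := ha x y (-(f (0, 1))⁻¹ • (f ∘ₗ LinearMap.inl F W F))
      set k := κ x y (-(f (0, 1))⁻¹ • (f ∘ₗ LinearMap.inl F W F))
      rw [show k = (k.1, k.2) from rfl, hval]
      intro h
      apply this
      rw [LinearMap.smul_apply, smul_eq_mul]
      field_simp
      linear_combination h
  · rintro ⟨x, y⟩ f g c hf hg' h
    simp only at h
    split_ifs at h with hs ht ht
    · obtain ⟨c', hc'⟩ := h2 x _ _ c (hg f hf hs) (hg g hg' ht) (congrArg Prod.fst h)
      refine ⟨c', ?_⟩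
      apply LinearMap.ext
      rintro ⟨x', y'⟩
      rw [LinearMap.smul_apply, hval f, hval g, hs, ht, hc']
      simp
    · exfalso
      have hc0 : c ≠ 0 := by
        rintro rfl
        exact hτ x _ (hg f hf hs) (by simpa using congrArg Prod.fst h)
      apply hd x y _ _ c⁻¹ (hτ x _ (hg f hf hs))
      rw [h, smul_smul, inv_mul_cancel₀ hc0, one_smul]
    · exact absurd h (hd x y _ _ c (hτ x _ (hg g hg' ht)))
    · have := hb x y _ _ c h
      refine ⟨f (0, 1) * (g (0, 1))⁻¹, ?_⟩
      apply LinearMap.ext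
      rintro ⟨x', y'⟩
      have h5 := LinearMap.congr_fun this x'
      rw [LinearMap.smul_apply, LinearMap.smul_apply, smul_eq_mul, smul_eq_mul] at h5
      rw [LinearMap.smul_apply, hval f x' y', hval g x' y', smul_eq_mul]
      field_simp at h5 ⊢
      linear_combination -h5
  · rintro f ⟨x, y⟩ ⟨x', y'⟩ c hf hp h
    simp only at h
    rw [hval f x y, hval f x' y'] at hp
    split_ifs at h with hs
    · rw [hs, mul_zero, mul_zero, add_zero, add_zero] at hp
      have h5 := congrArg Prod.fst h
      have hx : x = x' := h3 _ x x' c (hg f hf hs) hp h5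
      subst hx
      have hc1 : c = 1 := by
        simp only [Prod.smul_mk] at h5
        have h6 : (c - 1) • τ x (f ∘ₗ LinearMap.inl F W F) = 0 := by
          rw [sub_smul, one_smul, ← h5, sub_self]
        rcases smul_eq_zero.mp h6 with h7 | h7
        · exact sub_eq_zero.mp h7
        · exact absurd h7 (hτ x _ (hg f hf hs))
      rw [hc1, one_smul] at h
      rw [he x y y' _ (hτ x _ (hg f hf hs)) (congrArg Prod.snd h)]
    · have h5 : y - (-(f (0, 1))⁻¹ • (f ∘ₗ LinearMap.inl F W F)) x =
          y' - (-(f (0, 1))⁻¹ • (f ∘ₗ LinearMap.inl F W F)) x' := by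
        rw [LinearMap.smul_apply, LinearMap.smul_apply, smul_eq_mul, smul_eq_mul]
        field_simp
        linear_combination hp
      have hx : x = x' := hc _ x y x' y' c h5 h
      subst hx
      rw [sub_left_inj.mp h5]

theorem card_dual (F W : Type*) [Field F] [AddCommGroup W] [Module F W] [Finite W] :
    Nat.card (Dual F W) = Nat.card W :=
  (Nat.card_congr (Module.finBasis F W).toDualEquiv.toEquiv).symm

theorem finite_dual (F W : Type*) [Field F] [AddCommGroup W] [Module F W] [Finite W] :
    Finite (Dual F W) :=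
  Finite.of_equiv W (Module.finBasis F W).toDualEquiv.toEquiv

theorem exists_dual_ne_zero (F K : Type*) [Field F] [Field K] [Algebra F K] :
    ∃ g : Dual F K, g 1 = 1 := by
  obtain ⟨g, hg⟩ := Module.Projective.exists_dual_eq_one F (one_ne_zero : (1 : K) ≠ 0)
  exact ⟨g, hg⟩

theorem Ordr.prod {K W : Type*} [Field K] [Algebra F K] [AddCommGroup W] [Module K W] [Module F W]
    [IsScalarTower F K W] [Finite W] (hK : Ordr K W) (hF : Ordr F K) : Ordr F W := by
  obtain ⟨σ, s1, s2, s3⟩ := hK.normalised
  obtain ⟨τ, t1, t2, t3⟩ := hF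
  obtain ⟨r, N, r1, r2⟩ := exists_nrm K (Dual K W)
  obtain ⟨g₀, hg₀⟩ := exists_dual_ne_zero F K
  let Φ : Dual K W → Dual F W := fun u => g₀ ∘ₗ u.restrictScalars F
  have hΦ : ∀ u x, Φ u x = g₀ (u x) := fun _ _ => rfl
  have hinj : Function.Injective Φ := by
    intro u u' h
    by_contra hne
    obtain ⟨x, hx⟩ : ∃ x, u x - u' x ≠ 0 := by
      by_contra hcon
      push Not at hcon
      exact hne (LinearMap.ext fun x => sub_eq_zero.mp (hcon x))
    have h1 := LinearMap.congr_fun h ((u x - u' x)⁻¹ • x)
    rw [hΦ, hΦ, ← sub_eq_zero, ← map_sub, map_smul, map_smul, ← smul_sub, smul_eq_mul,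
      inv_mul_cancel₀ hx, hg₀] at h1
    exact one_ne_zero h1
  have := finite_dual K W
  have := finite_dual F W
  have hbij : Function.Bijective Φ :=
    hinj.bijective_of_nat_card_le (by rw [card_dual, card_dual])
  choose U hU using hbij.surjective
  have hU0 : ∀ f, f ≠ 0 → U f ≠ 0 := by
    intro f hf h
    apply hf
    rw [← hU f, h]
    ext x
    simp [hΦ]
  have hr0 : ∀ f, f ≠ 0 → r (U f) ≠ 0 := by
    intro f hf h
    apply hU0 f hf
    rw [r1 _ (hU0 f hf), h, smul_zero]
  let g : Dual F W → Dual F K := fun f => g₀ ∘ₗ LinearMap.mulLeft F (N (U f))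
  have hg : ∀ f z, g f z = g₀ (N (U f) * z) := fun _ _ => rfl
  have hfg : ∀ f, f ≠ 0 → ∀ x, f x = g f (r (U f) x) := by
    intro f hf x
    rw [hg, ← smul_eq_mul, ← LinearMap.smul_apply, ← r1 _ (hU0 f hf), ← hΦ, hU]
  have hg0 : ∀ f, f ≠ 0 → g f ≠ 0 := by
    intro f hf h
    apply hf
    ext x
    rw [hfg f hf, h]
    simp
  have hτ0 : ∀ z (k : Dual F K), k ≠ 0 → τ z k ≠ 0 := by
    intro z k hk h
    exact t1 z k hk (by rw [h, map_zero])
  refine ⟨fun p f => τ (r (U f) p) (g f) • σ p (r (U f)), ?_, ?_, ?_⟩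
  · intro p f hf
    rw [hfg f hf, map_smul, s1 _ _ (hr0 f hf), smul_eq_mul, mul_one]
    exact t1 _ _ (hg0 f hf)
  · intro p f f' c hf hf' h
    simp only at h
    have h1 : σ p (r (U f)) = ((τ (r (U f) p) (g f))⁻¹ * (c • τ (r (U f') p) (g f'))) •
        σ p (r (U f')) := by
      rw [mul_smul, smul_assoc, ← h, smul_smul, inv_mul_cancel₀ (hτ0 _ _ (hg0 f hf)), one_smul]
    obtain ⟨c', hc'⟩ := s2 _ _ _ _ (hr0 f hf) (hr0 f' hf') h1
    have h2 : r (U f) = r (U f') := by
      have a1 := r2 _ _ _ (hU0 f hf) (r1 _ (hU0 f hf))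
      have a2 := r2 _ _ _ (hU0 f' hf') (r1 _ (hU0 f' hf'))
      have a3 := r2 _ _ _ (hr0 f hf) hc'
      rw [a1, a2, a3]
    rw [← h2] at h
    have h3 := congrArg (r (U f)) h
    rw [← smul_assoc, map_smul, map_smul, s1 _ _ (hr0 f hf), smul_eq_mul, smul_eq_mul, mul_one,
      mul_one] at h3
    obtain ⟨c'', hc''⟩ := t2 _ _ _ c (hg0 f hf) (hg0 f' hf') h3
    refine ⟨c'', ?_⟩
    ext x
    rw [LinearMap.smul_apply, hfg f hf, hfg f' hf', hc'', h2]
    simp
  · intro f p p' c hf hp h
    simp only at h
    have h3 := congrArg (r (U f)) h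
    rw [← smul_assoc, map_smul, map_smul, s1 _ _ (hr0 f hf), s1 _ _ (hr0 f hf), smul_eq_mul,
      smul_eq_mul, mul_one, mul_one] at h3
    rw [hfg f hf, hfg f hf] at hp
    have h4 := t3 _ _ _ c (hg0 f hf) hp h3
    rw [← smul_assoc, ← h3] at h
    exact s3 _ p p' (hr0 f hf) h4 (smul_right_injective W (hτ0 _ _ (hg0 f hf)) h)

theorem ord_one (F : Type*) [Field F] : Ordr F F := by
  have hval : ∀ (f : Dual F F) (x : F), f x = x * f 1 := by
    intro f x
    rw [← smul_eq_mul, ← map_smul, smul_eq_mul, mul_one]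
  have h1 : ∀ f : Dual F F, f ≠ 0 → f 1 ≠ 0 := by
    intro f hf h
    apply hf
    ext
    simpa using h
  refine ⟨fun _ _ => 1, fun _ f hf => h1 f hf, ?_, ?_⟩
  · intro p f g c hf hg _
    refine ⟨f 1 * (g 1)⁻¹, ?_⟩
    ext
    rw [LinearMap.smul_apply, smul_eq_mul, mul_assoc, inv_mul_cancel₀ (h1 g hg), mul_one]
  · intro f p p' c hf hp _
    rw [hval f p, hval f p'] at hp
    exact mul_right_cancel₀ (h1 f hf) hp

end Pool.Agent.Lib.MP_9dc2ba_co
end

-- part Pool.Agent.Lib.MP_9dc2ba_co.Plane
section

/-!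
The ordering for the Desarguesian affine plane over a finite field with at least 3 elements.
-/

open Module

namespace Pool.Agent.Lib.MP_9dc2ba_co

variable {F : Type*} [Field F]

theorem plane_of_col (col : F → F → F → Option F) (v : F → F → F)
    (ha : ∀ a y m, col a y m ≠ some m)
    (hb : ∀ a y m m', col a y m = col a y m' → m = m')
    (hc : ∀ m a y a' y', y - m * a = y' - m * a' → col a y m = col a' y' m → a = a')
    (hd : ∀ a y m, col a y m ≠ some (v a y))
    (he : ∀ a y y', v a y = v a y' → y = y') : Ordr F (F × F) := by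
  have hval : ∀ (f : Dual F F) (x : F), f x = f 1 * x := by
    intro f x
    rw [mul_comm, ← smul_eq_mul, ← map_smul, smul_eq_mul, mul_one]
  let dir : Option F → F × F := fun o => match o with
    | none => (0, 1)
    | some t => (1, t)
  have hdir : ∀ o o' (c : F), dir o = c • dir o' → o = o' := by
    intro o o' c h
    rcases o with _ | t <;> rcases o' with _ | t' <;> simp [dir] at h ⊢
    · obtain ⟨rfl, h⟩ := h
      simp at h
    · obtain ⟨rfl, h⟩ := h
      simpa using h
  apply (ord_one F).step (fun x y m => dir (col x y (m 1))) (fun x y d => d * v x y)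
  · intro x y m
    have := ha x y (m 1)
    rcases h : col x y (m 1) with _ | t
    · simp [dir]
    · rw [h] at this
      simp only [dir]
      intro h2
      exact this (by rw [h2])
  · intro x y m m' c h
    have := hb _ _ _ _ (hdir _ _ _ h)
    ext
    exact this
  · intro m x y x' y' c h1 h
    rw [hval m x, hval m x'] at h1
    exact hc _ _ _ _ _ h1 (hdir _ _ _ h)
  · intro x y d m c hd0 h
    apply hd x y (m 1)
    apply hdir _ _ (c * d)
    rw [h]
    simp [dir, mul_assoc]
  · intro x y y' d hd0 h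
    exact he x y y' (mul_left_cancel₀ hd0 h)

theorem plane_odd (h2 : (2 : F) ≠ 0) : Ordr F (F × F) := by
  classical
  apply plane_of_col
    (fun a y m => if m = 2 * a then none else
      if m = y - a ^ 2 then some (2 * a) else some (2 * (m - a)))
    (fun a y => 2 * (y - a ^ 2 - a))
  · intro a y m
    split_ifs <;> simp <;> grind
  · intro a y m m'
    split_ifs <;> simp <;> grind
  · intro m a y a' y' h
    split_ifs <;> simp <;> grind
  · intro a y m
    split_ifs <;> simp <;> grind
  · intro a y y' h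
    grind

theorem plane_even [Finite F] (h2 : (2 : F) = 0) (k : F) (hk0 : k ≠ 0) (hk1 : k + 1 ≠ 0) :
    Ordr F (F × F) := by
  classical
  have hsq : ∀ x y : F, x ^ 2 = y ^ 2 → x = y := by
    intro x y h
    have : (x - y) ^ 2 = 0 := by linear_combination h + (y ^ 2 - x * y) * h2
    exact sub_eq_zero.mp (pow_eq_zero_iff two_ne_zero |>.mp this)
  have hsurj : Function.Surjective (fun x : F => ((k + 1) * x) ^ 2) := by
    apply Finite.surjective_of_injective
    intro x y h
    exact mul_left_cancel₀ hk1 (hsq _ _ h)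
  choose s hs using hsurj
  have hs' : ∀ h x, h = ((k + 1) * x) ^ 2 ↔ s h = x := by
    intro h x
    constructor
    · intro e
      apply mul_left_cancel₀ hk1
      apply hsq
      rw [← e]
      exact hs h
    · intro e
      rw [← e]
      exact (hs h).symm
  obtain ⟨i, hi⟩ : ∃ i, k * i = 1 := ⟨k⁻¹, mul_inv_cancel₀ hk0⟩
  obtain ⟨j, hj⟩ : ∃ j, (k + 1) * j = 1 := ⟨(k + 1)⁻¹, mul_inv_cancel₀ hk1⟩
  apply plane_of_col
    (fun a y m => if m = 0 then (if a = 0 then none else if y = 0 then some (a * i) else some (a * j))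
      else if y + a ^ 2 = 0 then
        (if a = k * m then none else if a = (k + 1) * m then some (a * i) else some ((a + m) * i))
      else if a = (k + 1) * m then none
      else if y + a ^ 2 = ((k + 1) * m) ^ 2 ∧ a ≠ k * m then some (a * i) else some ((a + m) * i))
    (fun a y => if y + a ^ 2 = 0 then (a + a * i) * i
      else if a = k * s (y + a ^ 2) then a * i else (a + s (y + a ^ 2)) * i)
  · intro a y m
    split_ifs <;> simp <;> grind
  · intro a y m m'
    split_ifs <;> simp <;> grind
  · intro m a y a' y' h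
    have key1 : a = a' + m → y + a ^ 2 = y' + a' ^ 2 := by
      intro e
      rw [e] at h ⊢
      linear_combination h + (m ^ 2 + a' * m) * h2
    have key2 : a + m = a' → y + a ^ 2 = y' + a' ^ 2 := by
      intro e
      rw [← e] at h ⊢
      linear_combination h - (m ^ 2 + a * m) * h2
    have key3 : a = a' + m → a' = k * m → a = (k + 1) * m := by
      intro e e'
      rw [e, e']; ring
    have key4 : a + m = a' → a = k * m → a' = (k + 1) * m := by
      intro e e'
      rw [← e, e']; ring
    clear hs hs' hsq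
    split_ifs <;> simp <;> grind
  · intro a y m
    have := hs (y + a ^ 2)
    have := hs' (y + a ^ 2) m
    split_ifs <;> simp <;> grind
  · intro a y y' h
    have e1 : ((k + 1) * s (y + a ^ 2)) ^ 2 = y + a ^ 2 := hs (y + a ^ 2)
    have e2 : ((k + 1) * s (y' + a ^ 2)) ^ 2 = y' + a ^ 2 := hs (y' + a ^ 2)
    have hi0 : i ≠ 0 := by
      rintro rfl
      simp at hi
    generalize s (y + a ^ 2) = u at *
    generalize s (y' + a ^ 2) = u' at *
    have fin : u = u' → y = y' := by
      intro e
      rw [e] at e1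
      linear_combination e2 - e1
    have z1 : u = 0 → y + a ^ 2 = 0 := by
      intro e
      rw [← e1, e]; ring
    have z2 : u' = 0 → y' + a ^ 2 = 0 := by
      intro e
      rw [← e2, e]; ring
    clear hs hs' hsq e1 e2 hj
    split_ifs at h with c1 c2 c3 c4 c5 c6 c7 c8
    · linear_combination c1 - c2
    · exfalso
      have h3 := mul_right_cancel₀ hi0 h
      have h4 : a = 0 := (mul_eq_zero.mp (by linear_combination h3 : a * i = 0)).resolve_right hi0
      rw [h4] at c3
      exact c2 (z2 ((mul_eq_zero.mp c3.symm).resolve_left hk0))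
    · exfalso
      have h3 := mul_right_cancel₀ hi0 h
      apply c3
      linear_combination k * h3 - a * hi
    · exfalso
      have h3 := mul_right_cancel₀ hi0 h
      have h4 : a = 0 := (mul_eq_zero.mp (by linear_combination -h3 : a * i = 0)).resolve_right hi0
      rw [h4] at c4
      exact c1 (z1 ((mul_eq_zero.mp c4.symm).resolve_left hk0))
    · exact fin (mul_left_cancel₀ hk0 (c4.symm.trans c6))
    · exfalso
      have h3 := mul_right_cancel₀ hi0 h
      exact c5 (z2 (by linear_combination -h3))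
    · exfalso
      have h3 := mul_right_cancel₀ hi0 h
      apply c4
      linear_combination -k * h3 - a * hi
    · exfalso
      have h3 := mul_right_cancel₀ hi0 h
      exact c1 (z1 (by linear_combination h3))
    · exact fin (add_left_cancel (mul_right_cancel₀ hi0 h))

theorem plane (F : Type*) [Field F] [Finite F] (h : 3 ≤ Nat.card F) : Ordr F (F × F) := by
  by_cases h2 : (2 : F) = 0
  · have := Fintype.ofFinite F
    classical
    obtain ⟨k, hk⟩ : ∃ k : F, k ∉ ({0, -1} : Finset F) := by
      by_contra hcon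
      push Not at hcon
      have h3 : (Finset.univ : Finset F) ⊆ {0, -1} := fun x _ => hcon x
      have h4 := Finset.card_le_card h3
      have h5 : ({0, -1} : Finset F).card ≤ 2 := Finset.card_le_two
      rw [Finset.card_univ, ← Nat.card_eq_fintype_card] at h4
      omega
    simp only [Finset.mem_insert, Finset.mem_singleton, not_or] at hk
    exact plane_even h2 k hk.1 (fun h => hk.2 (eq_neg_of_add_eq_zero_left h))
  · exact plane_odd h2

end Pool.Agent.Lib.MP_9dc2ba_co
end

-- part Pool.Agent.Lib.MP_9dc2ba_co.Steps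
section

/-!
The symplectic extension steps from even to odd dimension.
-/

open Module

namespace Pool.Agent.Lib.MP_9dc2ba_co

theorem exists_blocks {L W : Type*} [Field L] [AddCommGroup W] [Module L W] [Finite W]
    (ψ : W →ₗ[L] Dual L W) (hψ : Function.Injective ψ) (h : Ordr L W) :
    ∃ (r : W → W) (N : W → L) (D U : W → W),
      (∀ u, u ≠ 0 → u = N u • r u) ∧ (∀ u, u ≠ 0 → N u ≠ 0) ∧
      (∀ u, u ≠ 0 → ψ (r u) (D u) = 1) ∧
      (∀ u u' (c c' : L), u ≠ 0 → u' ≠ 0 → c ≠ 0 → c • D u = c' • D u' →
        r u = r u' ∧ D u = D u' ∧ c = c') ∧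
      (∀ d, d ≠ 0 → U d ≠ 0 ∧ d = N (U d) • D (U d)) := by
  classical
  obtain ⟨σ, s1, s2, -⟩ := h.normalised
  obtain ⟨r, N, r1, r2⟩ := exists_nrm L W
  have hN : ∀ u, u ≠ 0 → N u ≠ 0 := by
    intro u hu h
    exact hu (by rw [r1 u hu, h, zero_smul])
  have hr : ∀ u, u ≠ 0 → r u ≠ 0 := by
    intro u hu h
    exact hu (by rw [r1 u hu, h, smul_zero])
  have hψr : ∀ u, u ≠ 0 → ψ (r u) ≠ 0 := by
    intro u hu h
    exact hr u hu (hψ (by rw [h, map_zero]))
  have key : ∀ u u' (c c' : L), u ≠ 0 → u' ≠ 0 → c ≠ 0 →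
      c • σ 0 (ψ (r u)) = c' • σ 0 (ψ (r u')) →
        r u = r u' ∧ σ 0 (ψ (r u)) = σ 0 (ψ (r u')) ∧ c = c' := by
    intro u u' c c' hu hu' hc h
    have h1 : σ 0 (ψ (r u)) = (c⁻¹ * c') • σ 0 (ψ (r u')) := by
      rw [mul_smul, ← h, smul_smul, inv_mul_cancel₀ hc, one_smul]
    obtain ⟨c'', hc''⟩ := s2 _ _ _ _ (hψr u hu) (hψr u' hu') h1
    rw [← map_smul] at hc''
    have h2 : r u = r u' := by
      have a1 := r2 _ _ _ hu (r1 _ hu)
      have a2 := r2 _ _ _ hu' (r1 _ hu')
      have a3 := r2 _ _ _ (hr u hu) (hψ hc'')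
      rw [a1, a2, a3]
    refine ⟨h2, by rw [h2], ?_⟩
    rw [← h2] at h
    have h3 := congrArg (ψ (r u)) h
    rwa [map_smul, map_smul, s1 _ _ (hψr u hu), smul_eq_mul, smul_eq_mul, mul_one, mul_one] at h3
  let E : W → W := fun u => if u = 0 then 0 else N u • σ 0 (ψ (r u))
  have hE0 : ∀ u, u ≠ 0 → N u • σ 0 (ψ (r u)) ≠ 0 := by
    intro u hu h
    have h3 := congrArg (ψ (r u)) h
    rw [map_smul, s1 _ _ (hψr u hu), smul_eq_mul, mul_one, map_zero] at h3
    exact hN u hu h3
  have hE : Function.Injective E := by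
    intro u u' h
    simp only [E] at h
    split_ifs at h with h1 h2 h2
    · rw [h1, h2]
    · exact absurd h.symm (hE0 u' h2)
    · exact absurd h (hE0 u h1)
    · obtain ⟨a1, -, a3⟩ := key u u' _ _ h1 h2 (hN u h1) h
      rw [r1 u h1, r1 u' h2, a1, a3]
  choose U hU using Finite.surjective_of_injective hE
  refine ⟨r, N, fun u => σ 0 (ψ (r u)), U, r1, hN, fun u hu => s1 _ _ (hψr u hu), key, ?_⟩
  intro d hd
  have h1 := hU d
  simp only [E] at h1
  split_ifs at h1 with h2
  · exact absurd h1.symm hd
  · exact ⟨h2, h1.symm⟩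

/-- the alternating form `g (det (z, x))` -/
def symp {F K : Type*} [Field F] [Field K] [Algebra F K] (g : Dual F K) :
    (K × K) →ₗ[F] Dual F (K × K) :=
  LinearMap.mk₂ F (fun z x => g (z.1 * x.2 - z.2 * x.1))
    (fun z z' x => by rw [← map_add]; congr 1; simp only [Prod.fst_add, Prod.snd_add]; ring)
    (fun c z x => by
      rw [← map_smul]; congr 1
      rw [Prod.smul_fst, Prod.smul_snd]
      simp only [Algebra.smul_def]; ring)
    (fun z x x' => by rw [← map_add]; congr 1; simp only [Prod.fst_add, Prod.snd_add]; ring)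
    (fun c z x => by
      rw [← map_smul]; congr 1
      rw [Prod.smul_fst, Prod.smul_snd]
      simp only [Algebra.smul_def]; ring)

theorem symp_apply {F K : Type*} [Field F] [Field K] [Algebra F K] (g : Dual F K) (z x : K × K) :
    symp g z x = g (z.1 * x.2 - z.2 * x.1) := rfl

theorem symp_self {F K : Type*} [Field F] [Field K] [Algebra F K] (g : Dual F K) (z : K × K) :
    symp g z z = 0 := by
  rw [symp_apply, mul_comm, sub_self, map_zero]

theorem symp_injective {F K : Type*} [Field F] [Field K] [Algebra F K] (g : Dual F K)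
    (hg : g 1 = 1) : Function.Injective (symp g) := by
  rw [injective_iff_map_eq_zero]
  rintro ⟨a, b⟩ h
  by_contra hne
  by_cases ha : a = 0
  · have hb : b ≠ 0 := by
      rintro rfl
      exact hne (by rw [ha]; rfl)
    have := LinearMap.congr_fun h (-b⁻¹, 0)
    rw [symp_apply] at this
    simp [hb, hg] at this
  · have := LinearMap.congr_fun h (0, a⁻¹)
    rw [symp_apply] at this
    simp [ha, hg] at this

theorem step_alt {F W : Type*} [Field F] [AddCommGroup W] [Module F W] [Finite W]
    (ψ : W →ₗ[F] Dual F W) (hψ : Function.Injective ψ) (halt : ∀ z, ψ z z = 0)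
    (l : F) (hl0 : l ≠ 0) (hl1 : 1 - l ≠ 0) (h : Ordr F W) : Ordr F (W × F) := by
  classical
  obtain ⟨r, N, D, U, r1, hN, hD, key, hU⟩ := exists_blocks ψ hψ h
  have := finite_dual F W
  have hbij : Function.Bijective ψ := hψ.bijective_of_nat_card_le (by rw [card_dual])
  choose Z hZ using hbij.surjective
  have hD0 : ∀ u, u ≠ 0 → D u ≠ 0 := by
    intro u hu h
    have := hD u hu
    rw [h, map_zero] at this
    exact zero_ne_one this
  have hb : ∀ m x, Z m - x ≠ 0 → m (D (Z m - x)) = ψ x (D (Z m - x)) + N (Z m - x) := by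
    intro m x hu
    have e : m = ψ x + N (Z m - x) • ψ (r (Z m - x)) := by
      rw [← map_smul, ← r1 _ hu, ← map_add, add_sub_cancel, hZ]
    have := LinearMap.congr_fun e (D (Z m - x))
    rwa [LinearMap.add_apply, LinearMap.smul_apply, hD _ hu, smul_eq_mul, mul_one] at this
  have hA : ∀ m x, Z m - x ≠ 0 → ψ x (r (Z m - x)) = m (r (Z m - x)) := by
    intro m x hu
    have e : m = ψ x + N (Z m - x) • ψ (r (Z m - x)) := by
      rw [← map_smul, ← r1 _ hu, ← map_add, add_sub_cancel, hZ]
    have := LinearMap.congr_fun e (r (Z m - x))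
    rw [LinearMap.add_apply, LinearMap.smul_apply, halt, smul_zero, add_zero] at this
    exact this.symm
  have hmx : ∀ m x, Z m - x ≠ 0 → m x = -(N (Z m - x) * m (r (Z m - x))) := by
    intro m x hu
    have e1 : m (Z m) = 0 := by
      have := halt (Z m)
      rwa [hZ] at this
    rw [← smul_eq_mul, ← map_smul, ← r1 _ hu, map_sub, e1]
    ring
  apply h.step
    (fun x y m => if Z m - x = 0 then (0, 1) else
      (D (Z m - x), if m (D (Z m - x)) = y - ψ x (D (Z m - x)) * ψ x (r (Z m - x))
        then ψ x (D (Z m - x)) else m (D (Z m - x)) + l * (ψ x (D (Z m - x)) - m (D (Z m - x)))))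
    (fun x y d => N (U d) * (y - ψ x (D (U d)) * ψ x (r (U d)) +
      l * (ψ x (D (U d)) - (y - ψ x (D (U d)) * ψ x (r (U d))))))
  · intro x y m
    by_cases hu : Z m - x = 0
    · simp [hu]
    · have h1 := hb m x hu
      have h2 := hN _ hu
      simp only [if_neg hu]
      split_ifs
      · intro h
        exact h2 (by linear_combination -h - h1)
      · intro h
        exact mul_ne_zero hl0 h2 (by linear_combination -h - l * h1)
  · intro x y m m' c h
    have fin : Z m - x = Z m' - x → m = m' := by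
      intro e
      rw [← hZ m, ← hZ m', sub_left_injective e]
    by_cases hu : Z m - x = 0 <;> by_cases hu' : Z m' - x = 0
    · exact fin (hu.trans hu'.symm)
    · exfalso
      simp only [if_pos hu, if_neg hu', Prod.smul_mk, Prod.mk.injEq] at h
      rcases smul_eq_zero.mp h.1.symm with h3 | h3
      · rw [h3] at h; simp at h
      · exact hD0 _ hu' h3
    · exfalso
      simp only [if_neg hu, if_pos hu', Prod.smul_mk, Prod.mk.injEq, smul_zero] at h
      exact hD0 _ hu h.1
    · simp only [if_neg hu, if_neg hu', Prod.smul_mk, Prod.mk.injEq] at h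
      obtain ⟨a1, a2, a3⟩ := key _ _ 1 c hu hu' one_ne_zero (by rw [one_smul]; exact h.1)
      have h1 := hb m x hu
      have h1' := hb m' x hu'
      have h2 := hN _ hu
      have h2' := hN _ hu'
      have h3 := h.2
      rw [← a3, one_smul, ← a1, ← a2] at h3
      rw [← a2] at h1'
      apply fin
      rw [r1 _ hu, r1 _ hu', ← a1]
      congr 1
      split_ifs at h3 with c1 c2 c2
      · linear_combination c1 - c2 - h1 + h1'
      · exact absurd (by linear_combination -h3 - (1 - l) * h1') (mul_ne_zero hl1 h2')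
      · exact absurd (by linear_combination h3 - (1 - l) * h1) (mul_ne_zero hl1 h2)
      · apply mul_left_cancel₀ hl1
        linear_combination h3 - (1 - l) * h1 + (1 - l) * h1'
  · intro m x y x' y' c hy h
    by_cases hu : Z m - x = 0 <;> by_cases hu' : Z m - x' = 0
    · exact sub_right_injective (hu.trans hu'.symm)
    · exfalso
      simp only [if_pos hu, if_neg hu', Prod.smul_mk, Prod.mk.injEq] at h
      rcases smul_eq_zero.mp h.1.symm with h3 | h3
      · rw [h3] at h; simp at h
      · exact hD0 _ hu' h3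
    · exfalso
      simp only [if_neg hu, if_pos hu', Prod.smul_mk, Prod.mk.injEq, smul_zero] at h
      exact hD0 _ hu h.1
    · simp only [if_neg hu, if_neg hu', Prod.smul_mk, Prod.mk.injEq] at h
      obtain ⟨a1, a2, a3⟩ := key _ _ 1 c hu hu' one_ne_zero (by rw [one_smul]; exact h.1)
      have h1 := hb m x hu
      have h1' := hb m x' hu'
      have h4 := hA m x hu
      have h4' := hA m x' hu'
      have h5 := hmx m x hu
      have h5' := hmx m x' hu'
      have h3 := h.2
      rw [← a3, one_smul, ← a1, ← a2] at h3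
      rw [← a2] at h1'
      rw [← a1] at h4' h5'
      have hη : y - ψ x (D (Z m - x)) * ψ x (r (Z m - x)) =
          y' - ψ x' (D (Z m - x)) * ψ x' (r (Z m - x)) := by
        rw [h4, h4']
        linear_combination hy + h5 - h5' + m (r (Z m - x)) * h1 - m (r (Z m - x)) * h1'
      rw [← hη] at h3
      apply sub_right_injective (b := Z m)
      simp only
      rw [r1 _ hu, r1 _ hu', ← a1]
      congr 1
      split_ifs at h3 with c1
      · linear_combination -h3 - h1 + h1'
      · apply mul_left_cancel₀ hl0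
        linear_combination -h3 - l * h1 + l * h1'
  · intro x y d m c hd h
    obtain ⟨u0, hdU⟩ := hU d hd
    by_cases hu : Z m - x = 0
    · simp only [if_pos hu, Prod.smul_mk, Prod.mk.injEq] at h
      rcases smul_eq_zero.mp h.1.symm with h3 | h3
      · rw [h3] at h; simp at h
      · exact hd h3
    · simp only [if_neg hu, Prod.smul_mk, Prod.mk.injEq] at h
      obtain ⟨a1, a2, a3⟩ := key _ _ 1 (c * N (U d)) hu u0 one_ne_zero
        (by rw [one_smul, mul_smul, ← hdU]; exact h.1)
      have h1 := hb m x hu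
      have h2 := hN _ hu
      have h3 := h.2
      rw [smul_eq_mul, ← mul_assoc, ← a3, one_mul, ← a1, ← a2] at h3
      split_ifs at h3 with c1
      · exact mul_ne_zero hl1 h2 (by linear_combination -h3 - (1 - l) * h1 + (1 - l) * c1)
      · exact mul_ne_zero hl1 (sub_ne_zero.mpr c1) (by linear_combination h3)
  · intro x y y' d hd h
    have h1 := mul_left_cancel₀ (hN _ (hU d hd).1) h
    apply mul_left_cancel₀ hl1
    linear_combination h1

theorem step_two {F K : Type*} [Field F] [Field K] [Algebra F K] [Finite K]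
    (hF : ∀ c : F, c = 0 ∨ c = 1) (hK : 3 ≤ Nat.card K) (h : Ordr F (K × K)) :
    Ordr F ((K × K) × F) := by
  classical
  obtain ⟨g, hg⟩ := exists_dual_ne_zero F K
  obtain ⟨r, N, D, U, r1, hN, hD, key, hU⟩ := exists_blocks (symp (F := K) LinearMap.id)
    (symp_injective _ rfl) (plane K hK)
  set δ := symp (F := K) (K := K) LinearMap.id with hδ
  have hgδ : ∀ z x, symp g z x = g (δ z x) := fun _ _ => rfl
  have hδ0 : ∀ z, δ z z = 0 := symp_self _
  have := finite_dual F (K × K)
  have hbij : Function.Bijective (symp g) :=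
    (symp_injective g hg).bijective_of_nat_card_le (by rw [card_dual])
  choose Z hZ using hbij.surjective
  obtain ⟨α, hα0, hα⟩ : ∃ α : F → K, (∀ t, α t ≠ 0) ∧ ∀ t, g (α t) = t := by
    obtain ⟨β, hβ0, hβ⟩ : ∃ β : K, β ≠ 0 ∧ g β = 0 := by
      by_contra hcon
      push Not at hcon
      have hinj : Function.Injective g := by
        rw [injective_iff_map_eq_zero]
        intro a ha
        by_contra h0
        exact hcon a h0 ha
      have : Finite F := Finite.of_surjective (fun b : Bool => if b then (1 : F) else 0) (by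
        intro c
        rcases hF c with h | h
        · exact ⟨false, h.symm⟩
        · exact ⟨true, h.symm⟩)
      have h1 := Nat.card_le_card_of_injective g hinj
      have h2 := Nat.card_le_card_of_surjective (fun b : Bool => if b then (1 : F) else 0) (by
        intro c
        rcases hF c with h | h
        · exact ⟨false, h.symm⟩
        · exact ⟨true, h.symm⟩)
      rw [Nat.card_eq_fintype_card (α := Bool), Fintype.card_bool] at h2
      omega
    refine ⟨fun t => if t = 0 then β else 1, fun t => ?_, fun t => ?_⟩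
    · simp only
      split_ifs
      · exact hβ0
      · exact one_ne_zero
    · simp only
      split_ifs with h
      · rw [hβ, h]
      · rw [hg]; exact ((hF t).resolve_left h).symm
  have hD0 : ∀ u (c : K), u ≠ 0 → c ≠ 0 → c • D u ≠ 0 := by
    intro u c hu hc h
    have := hD u hu
    rw [(smul_eq_zero.mp h).resolve_left hc, map_zero] at this
    exact zero_ne_one this
  have hm : ∀ m x, m x = g (δ (Z m) x) := by
    intro m x
    rw [← hgδ, hZ]
  have hb : ∀ m x, Z m - x ≠ 0 → δ (Z m) (D (Z m - x)) = δ x (D (Z m - x)) + N (Z m - x) := by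
    intro m x hu
    have e : δ (Z m) = δ x + N (Z m - x) • δ (r (Z m - x)) := by
      rw [← map_smul, ← r1 _ hu, ← map_add, add_sub_cancel]
    have := LinearMap.congr_fun e (D (Z m - x))
    rwa [LinearMap.add_apply, LinearMap.smul_apply, hD _ hu, smul_eq_mul, mul_one] at this
  have hA : ∀ m x, Z m - x ≠ 0 → δ x (r (Z m - x)) = δ (Z m) (r (Z m - x)) := by
    intro m x hu
    have e : δ (Z m) = δ x + N (Z m - x) • δ (r (Z m - x)) := by
      rw [← map_smul, ← r1 _ hu, ← map_add, add_sub_cancel]
    have := LinearMap.congr_fun e (r (Z m - x))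
    rw [LinearMap.add_apply, LinearMap.smul_apply, hδ0, smul_zero, add_zero] at this
    exact this.symm
  have hmx : ∀ m x, Z m - x ≠ 0 → δ (Z m) x = -(N (Z m - x) * δ (Z m) (r (Z m - x))) := by
    intro m x hu
    rw [← smul_eq_mul, ← map_smul, ← r1 _ hu, map_sub, hδ0]
    ring
  let η : K × K → F → K × K → F := fun x y u => y - g (δ x (D u) * δ x (r u))
  let θ : K × K → F → K × K → K := fun x y u => α (η x y u) * (N u)⁻¹
  have hθ : ∀ x y u, u ≠ 0 → θ x y u ≠ 0 := fun x y u hu =>
    mul_ne_zero (hα0 _) (inv_ne_zero (hN u hu))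
  apply h.step
    (fun x y m => if Z m - x = 0 then (0, 1) else
      (θ x y (Z m - x) • D (Z m - x), m (θ x y (Z m - x) • D (Z m - x)) + 1))
    (fun x y d => symp g x d + η x y (U d))
  · intro x y m
    by_cases hu : Z m - x = 0
    · simp [hu]
    · simp [hu]
  · intro x y m m' c h
    have fin : Z m - x = Z m' - x → m = m' := by
      intro e
      rw [← hZ m, ← hZ m', sub_left_injective e]
    by_cases hu : Z m - x = 0 <;> by_cases hu' : Z m' - x = 0
    · exact fin (hu.trans hu'.symm)
    · exfalso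
      simp only [if_pos hu, if_neg hu', Prod.smul_mk, Prod.mk.injEq] at h
      rcases hF c with h3 | h3
      · rw [h3] at h; simp at h
      · rw [h3, one_smul] at h
        exact hD0 _ _ hu' (hθ x y _ hu') h.1.symm
    · exfalso
      simp only [if_neg hu, if_pos hu', Prod.smul_mk, Prod.mk.injEq, smul_zero] at h
      exact hD0 _ _ hu (hθ x y _ hu) h.1
    · simp only [if_neg hu, if_neg hu', Prod.smul_mk, Prod.mk.injEq] at h
      rcases hF c with h3 | h3
      · rw [h3, zero_smul] at h
        exact absurd h.1 (hD0 _ _ hu (hθ x y _ hu))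
      rw [h3, one_smul] at h
      obtain ⟨a1, a2, a3⟩ := key _ _ _ _ hu hu' (hθ x y _ hu) h.1
      simp only [θ, η] at a3
      rw [← a1, ← a2] at a3
      apply fin
      rw [r1 _ hu, r1 _ hu', ← a1, inv_injective (mul_left_cancel₀ (hα0 _) a3)]
  · intro m x y x' y' c hy h
    by_cases hu : Z m - x = 0 <;> by_cases hu' : Z m - x' = 0
    · exact sub_right_injective (hu.trans hu'.symm)
    · exfalso
      simp only [if_pos hu, if_neg hu', Prod.smul_mk, Prod.mk.injEq] at h
      rcases hF c with h3 | h3
      · rw [h3] at h; simp at h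
      · rw [h3, one_smul] at h
        exact hD0 _ _ hu' (hθ x' y' _ hu') h.1.symm
    · exfalso
      simp only [if_neg hu, if_pos hu', Prod.smul_mk, Prod.mk.injEq, smul_zero] at h
      exact hD0 _ _ hu (hθ x y _ hu) h.1
    · simp only [if_neg hu, if_neg hu', Prod.smul_mk, Prod.mk.injEq] at h
      rcases hF c with h3 | h3
      · rw [h3, zero_smul] at h
        exact absurd h.1 (hD0 _ _ hu (hθ x y _ hu))
      rw [h3, one_smul] at h
      obtain ⟨a1, a2, a3⟩ := key _ _ _ _ hu hu' (hθ x y _ hu) h.1
      have h1 := hb m x hu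
      have h1' := hb m x' hu'
      have h4 := hA m x hu
      have h4' := hA m x' hu'
      have h5 := hmx m x hu
      have h5' := hmx m x' hu'
      rw [← a2] at h1'
      rw [← a1] at h4' h5'
      have hη : η x y (Z m - x) = η x' y' (Z m - x') := by
        simp only [η]
        rw [← a1, ← a2, h4, h4']
        rw [hm m x, hm m x'] at hy
        have e : δ x (D (Z m - x)) * δ (Z m) (r (Z m - x)) - δ (Z m) x =
            δ x' (D (Z m - x)) * δ (Z m) (r (Z m - x)) - δ (Z m) x' := by
          linear_combination -h5 + h5' - δ (Z m) (r (Z m - x)) * h1 +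
            δ (Z m) (r (Z m - x)) * h1'
        have e2 := congrArg g e
        rw [map_sub, map_sub] at e2
        linear_combination hy - e2
      simp only [θ] at a3
      rw [← hη] at a3
      apply sub_right_injective (b := Z m)
      simp only
      rw [r1 _ hu, r1 _ hu', ← a1, inv_injective (mul_left_cancel₀ (hα0 _) a3)]
  · intro x y d m c hd h
    obtain ⟨u0, hdU⟩ := hU d hd
    by_cases hu : Z m - x = 0
    · simp only [if_pos hu, Prod.smul_mk, Prod.mk.injEq] at h
      rcases smul_eq_zero.mp h.1.symm with h3 | h3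
      · rw [h3] at h; simp at h
      · exact hd h3
    · simp only [if_neg hu, Prod.smul_mk, Prod.mk.injEq] at h
      rcases hF c with h3 | h3
      · rw [h3, zero_smul] at h
        exact absurd h.1 (hD0 _ _ hu (hθ x y _ hu))
      rw [h3, one_smul, one_smul] at h
      obtain ⟨a1, a2, a3⟩ := key _ _ _ (N (U d)) hu u0 (hθ x y _ hu) (h.1.trans hdU)
      have hη : η x y (U d) = η x y (Z m - x) := by
        simp only [η]
        rw [← a1, ← a2]
      have h4 := h.2
      rw [hη, ← h.1, hm, hgδ, map_smul (δ (Z m)), map_smul (δ x), hb m x hu, smul_eq_mul,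
        smul_eq_mul, mul_add, map_add] at h4
      have e : θ x y (Z m - x) * N (Z m - x) = α (η x y (Z m - x)) := by
        simp only [θ]
        rw [mul_assoc, inv_mul_cancel₀ (hN _ hu), mul_one]
      rw [e, hα] at h4
      exact one_ne_zero (by linear_combination h4 : (1 : F) = 0)
  · intro x y y' d _ h
    simp only [η] at h
    linear_combination h

end Pool.Agent.Lib.MP_9dc2ba_co
end
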