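import Mathlib
import Pool.Agent.Lib.MP_9dc2ba_co.Steps

/-!
Explicit orderings for the binary affine geometries of dimensions 3 and 4.
-/

open Module

namespace Pool.Agent.Lib.MP_9dc2ba_co

theorem ord_of_table {F : Type*} [Field F] (e : ZMod 2 ≃+* F) (n N : ℕ)
    (dec : Fin N → Fin n → ZMod 2) (hdec : Function.Bijective dec) (T : Fin N → Fin N → Fin N)
    (h1 : ∀ p f, dec f ≠ 0 → dec f ⬝ᵥ dec (T p f) ≠ 0)
    (h2 : ∀ p f g, dec f ≠ 0 → dec g ≠ 0 → T p f = T p g → f = g)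
    (h3 : ∀ f p p', dec f ≠ 0 → dec f ⬝ᵥ dec p = dec f ⬝ᵥ dec p' → T p f = T p' f → p = p') :
    Ordr F (Fin n → F) := by
  classical
  choose enc henc using hdec.surjective
  let co : Dual F (Fin n → F) → Fin N := fun f => enc fun i => e.symm (f (Pi.single i 1))
  let dn : (Fin n → F) → Fin N := fun p => enc fun i => e.symm (p i)
  let up : Fin N → Fin n → F := fun k i => e (dec k i)
  have hval : ∀ (f : Dual F (Fin n → F)) (k : Fin N), f (up k) = e (dec (co f) ⬝ᵥ dec k) := by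
    intro f k
    rw [LinearMap.pi_apply_eq_sum_univ]
    simp only [co, up, henc, dotProduct, map_sum, map_mul, RingEquiv.apply_symm_apply, smul_eq_mul]
    refine Finset.sum_congr rfl fun i _ => ?_
    rw [mul_comm]
    congr 2
    funext j
    simp [Pi.single_apply, eq_comm]
  have hup : ∀ p, up (dn p) = p := by
    intro p
    funext i
    simp only [up, dn, henc, RingEquiv.apply_symm_apply]
  have hupinj : Function.Injective up := by
    intro k k' h
    apply hdec.injective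
    funext i
    exact e.injective (congrFun h i)
  have hco : ∀ f g : Dual F (Fin n → F), co f = co g → f = g := by
    intro f g h
    apply LinearMap.ext
    intro p
    rw [← hup p, hval, hval, h]
  have hco0 : ∀ f : Dual F (Fin n → F), f ≠ 0 → dec (co f) ≠ 0 := by
    intro f hf h
    apply hf
    apply LinearMap.ext
    intro p
    rw [← hup p, hval, h]
    simp
  have hN : ∀ p (f : Dual F (Fin n → F)), f ≠ 0 → f (up (T (dn p) (co f))) ≠ 0 := by
    intro p f hf h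
    rw [hval] at h
    exact h1 _ _ (hco0 f hf) (e.injective (by rw [h, map_zero]))
  have hc : ∀ c : F, c = 0 ∨ c = 1 := by
    intro c
    have : ∀ z : ZMod 2, z = 0 ∨ z = 1 := by decide
    rcases this (e.symm c) with h | h
    · left; rw [← e.apply_symm_apply c, h, map_zero]
    · right; rw [← e.apply_symm_apply c, h, map_one]
  refine ⟨fun p f => up (T (dn p) (co f)), hN, ?_, ?_⟩
  · intro p f g c hf hg h
    simp only at h
    rcases hc c with h0 | h0
    · rw [h0, zero_smul] at h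
      exact absurd (by rw [h, map_zero]) (hN p f hf)
    · rw [h0, one_smul] at h
      exact ⟨1, by rw [one_smul]; exact hco _ _ (h2 _ _ _ (hco0 f hf) (hco0 g hg) (hupinj h))⟩
  · intro f p p' c hf hp h
    simp only at h
    rcases hc c with h0 | h0
    · rw [h0, zero_smul] at h
      exact absurd (by rw [h, map_zero]) (hN p f hf)
    · rw [h0, one_smul] at h
      rw [← hup p, ← hup p', hval, hval] at hp
      rw [← hup p, ← hup p', h3 _ _ _ (hco0 f hf) (e.injective hp) (hupinj h)]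

/-- binary digits -/
def bits (n N : ℕ) (k : Fin N) (i : Fin n) : ZMod 2 := ((k.val / 2 ^ i.val : ℕ) : ZMod 2)

/-- table for dimension 3 -/
def tab3 (p f : Fin 8) : Fin 8 :=
  (([[0, 1, 2, 5, 4, 6, 3, 7], [0, 1, 3, 2, 5, 6, 4, 7], [0, 3, 2, 6, 7, 1, 5, 4],
    [0, 5, 7, 1, 6, 3, 2, 4], [0, 5, 7, 6, 4, 1, 3, 2], [0, 7, 6, 1, 5, 3, 4, 2],
    [0, 7, 3, 5, 6, 4, 2, 1], [0, 3, 6, 2, 7, 4, 5, 1]] : List (List (Fin 8))).getD p []).getD f 0

/-- table for dimension 4 -/
def tab4 (p f : Fin 16) : Fin 16 :=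
  (([[0, 1, 2, 5, 4, 3, 10, 7, 8, 12, 6, 11, 9, 13, 15, 14],
    [0, 1, 3, 2, 5, 4, 11, 7, 9, 8, 12, 6, 10, 15, 14, 13],
    [0, 3, 2, 1, 6, 4, 5, 9, 10, 7, 13, 12, 8, 15, 14, 11],
    [0, 3, 6, 1, 7, 9, 2, 4, 11, 14, 8, 12, 5, 10, 15, 13],
    [0, 5, 6, 2, 4, 1, 3, 10, 12, 8, 7, 15, 11, 13, 9, 14],
    [0, 5, 7, 6, 12, 1, 4, 2, 14, 3, 13, 15, 9, 10, 8, 11],
    [0, 7, 3, 5, 6, 11, 2, 15, 13, 14, 12, 1, 10, 4, 9, 8],
    [0, 7, 10, 6, 14, 11, 13, 1, 15, 12, 9, 2, 4, 3, 5, 8],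
    [0, 9, 10, 13, 12, 14, 3, 1, 15, 5, 2, 11, 6, 8, 4, 7],
    [0, 9, 11, 10, 13, 3, 12, 15, 14, 1, 6, 5, 7, 8, 2, 4],
    [0, 11, 14, 9, 15, 6, 10, 12, 13, 1, 2, 8, 5, 3, 4, 7],
    [0, 15, 7, 10, 14, 6, 13, 12, 11, 5, 9, 2, 8, 4, 3, 1],
    [0, 13, 14, 9, 15, 12, 11, 4, 10, 7, 3, 5, 6, 1, 8, 2],
    [0, 13, 15, 14, 5, 9, 12, 10, 8, 3, 7, 6, 11, 1, 2, 4],
    [0, 15, 11, 13, 7, 14, 5, 9, 12, 10, 8, 1, 4, 6, 3, 2],
    [0, 11, 15, 14, 13, 12, 4, 2, 9, 10, 3, 8, 7, 6, 5, 1]] :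
      List (List (Fin 16))).getD p []).getD f 0

theorem ord_two_three {F : Type*} [Field F] (e : ZMod 2 ≃+* F) : Ordr F (Fin 3 → F) := by
  apply ord_of_table e 3 8 (bits 3 8) _ tab3
  · decide +kernel
  · decide +kernel
  · decide +kernel
  · apply Function.Injective.bijective_of_nat_card_le
    · unfold Function.Injective
      decide +kernel
    · simp

theorem ord_two_four {F : Type*} [Field F] (e : ZMod 2 ≃+* F) : Ordr F (Fin 4 → F) := by
  apply ord_of_table e 4 16 (bits 4 16) _ tab4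
  · decide +kernel
  · decide +kernel
  · decide +kernel
  · apply Function.Injective.bijective_of_nat_card_le
    · unfold Function.Injective
      decide +kernel
    · simp

end Pool.Agent.Lib.MP_9dc2ba_co
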