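import Mathlib

/-!
Triple arrays, unordered triple arrays, and the extremal unordered triple array obtained by
Agrawal's construction from the point-hyperplane design of `PG(n, q)`.
-/

open Set Function

namespace Pool.Agent.Lib.MP_9dc2ba_co

/-- `(R, C)` is an `(r × c, v)`-unordered triple array with replication number `e`, where the rows
are indexed by `I` (`r = |I|`), the columns by `J` (`c = |J|`) and `S` is the set of symbols
(`v = |S|`). -/
structure IsUnorderedTripleArray {I J S : Type*} (R : I → Set S) (C : J → Set S) (e : ℕ) :
    Prop where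
  finite_rows : Finite I
  finite_cols : Finite J
  finite_symbols : Finite S
  card_row : ∀ i, (R i).ncard = Nat.card J
  card_col : ∀ j, (C j).ncard = Nat.card I
  rep_row : ∀ s, {i | s ∈ R i}.ncard = e
  rep_col : ∀ s, {j | s ∈ C j}.ncard = e
  row_col : ∃ l, ∀ i j, (R i ∩ C j).ncard = l
  row_row : ∃ l, ∀ i i', i ≠ i' → (R i ∩ R i').ncard = l
  col_col : ∃ l, ∀ j j', j ≠ j' → (C j ∩ C j').ncard = l

/-- The array `T` with rows `I`, columns `J` and symbols `S` is a triple array. -/
structure IsTripleArray {I J S : Type*} (T : I → J → S) : Prop where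
  finite_rows : Finite I
  finite_cols : Finite J
  finite_symbols : Finite S
  row_inj : ∀ i, Injective (fun j => T i j)
  col_inj : ∀ j, Injective (fun i => T i j)
  equireplicate : ∃ e, ∀ s, {c : I × J | T c.1 c.2 = s}.ncard = e
  row_row : ∃ l, ∀ i i', i ≠ i' → (range (fun j => T i j) ∩ range (fun j => T i' j)).ncard = l
  col_col : ∃ l, ∀ j j', j ≠ j' → (range (fun i => T i j) ∩ range (fun i => T i j')).ncard = l
  row_col : ∃ l, ∀ i j, (range (fun j' => T i j') ∩ range (fun i' => T i' j)).ncard = l

/-- Row-sets of Agrawal's construction for `PG(n, F)` and the point `p`: for a hyperplane `h`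
through `p` (given by its homogeneous coordinates), the points not on `h`. -/
def pgRow {F : Type*} [Field F] {n : ℕ} (p : Projectivization F (Fin (n + 1) → F))
    (h : {h : Projectivization F (Fin (n + 1) → F) // h.orthogonal p}) :
    Set {x : Projectivization F (Fin (n + 1) → F) // x ≠ p} :=
  {x | ¬ h.1.orthogonal x.1}

/-- Column-sets of Agrawal's construction for `PG(n, F)` and the point `p`: for a hyperplane `k`
not through `p`, the points on `k`. -/
def pgCol {F : Type*} [Field F] {n : ℕ} (p : Projectivization F (Fin (n + 1) → F))
    (k : {k : Projectivization F (Fin (n + 1) → F) // ¬ k.orthogonal p}) :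
    Set {x : Projectivization F (Fin (n + 1) → F) // x ≠ p} :=
  {x | k.1.orthogonal x.1}

end Pool.Agent.Lib.MP_9dc2ba_co
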