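import Mathlib
import Pool.Agent.Lib.MP_9dc2ba_co.Steps
import Pool.Agent.Lib.MP_9dc2ba_co.Base
import Pool.Agent.Lib.MP_9dc2ba_co.Defs

-- part Pool.Agent.Lib.MP_9dc2ba_co.Induct
section

/-!
The ordering exists for all affine geometries `AG(n, q)`, except `AG(2, 2)`.
-/

open Module

namespace Pool.Agent.Lib.MP_9dc2ba_co

theorem exists_ext (F : Type*) [Field F] [Finite F] (j : ℕ) (hj : j ≠ 0) :
    ∃ (K : Type) (_ : Field K) (_ : Algebra F K) (_ : Finite K),
      finrank F K = j ∧ Nat.card K = Nat.card F ^ j := by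
  obtain ⟨p, hp⟩ := CharP.exists F
  have : Fact p.Prime := ⟨CharP.char_is_prime F p⟩
  have : NeZero j := ⟨hj⟩
  exact ⟨FiniteField.Extension F p j, inferInstance, inferInstance, inferInstance,
    FiniteField.finrank_extension F p j, FiniteField.natCard_extension F p j⟩

theorem Ordr.of_finrank_eq {F W W' : Type*} [Field F] [AddCommGroup W] [Module F W]
    [AddCommGroup W'] [Module F W'] [Finite W] [Finite W'] (h : Ordr F W)
    (e : finrank F W = finrank F W') : Ordr F W' :=
  h.transport (LinearEquiv.ofFinrankEq W W' e)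

theorem ord_double {F : Type*} [Field F] [Finite F] (N : ℕ) (hN : N ≠ 0)
    (h3 : 3 ≤ Nat.card F ^ N) (h : Ordr F (Fin N → F)) : Ordr F (Fin (2 * N) → F) := by
  obtain ⟨K, _, _, _, h1, h2⟩ := exists_ext F N hN
  have hK : Ordr F K := h.of_finrank_eq (by simp [h1])
  have := (plane K (h2 ▸ h3)).prod hK
  exact this.of_finrank_eq (by simp [h1]; ring)

theorem ord_ge_three {F : Type*} [Field F] [Finite F] (hq : 3 ≤ Nat.card F) (n : ℕ) :
    n ≠ 0 → Ordr F (Fin n → F) := by
  induction n using Nat.strong_induction_on with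
  | _ n ih =>
    intro hn
    obtain ⟨N, rfl | rfl⟩ := Nat.even_or_odd' n
    · have hN : N ≠ 0 := by omega
      exact ord_double N hN (hq.trans (Nat.le_self_pow hN _)) (ih N (by omega) hN)
    · by_cases hN : N = 0
      · subst hN
        exact (ord_one F).of_finrank_eq (by simp)
      · obtain ⟨K, _, _, _, h1, -⟩ := exists_ext F N hN
        have hK : Ordr F (K × K) := (ih (2 * N) (by omega) (by omega)).of_finrank_eq
          (by simp [h1]; ring)
        obtain ⟨g, hg⟩ := exists_dual_ne_zero F K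
        have := Fintype.ofFinite F
        classical
        obtain ⟨k, hk⟩ : ∃ k : F, k ∉ ({0, 1} : Finset F) := by
          by_contra hcon
          push Not at hcon
          have h3 : (Finset.univ : Finset F) ⊆ {0, 1} := fun x _ => hcon x
          have h4 := Finset.card_le_card h3
          have h5 : ({0, 1} : Finset F).card ≤ 2 := Finset.card_le_two
          rw [Finset.card_univ, ← Nat.card_eq_fintype_card] at h4
          omega
        simp only [Finset.mem_insert, Finset.mem_singleton, not_or] at hk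
        exact (step_alt (symp g) (symp_injective g hg) (symp_self g) k hk.1
          (sub_ne_zero.mpr (Ne.symm hk.2)) hK).of_finrank_eq (by simp [h1]; ring)

theorem ord_two {F : Type*} [Field F] [Finite F] (hq : Nat.card F = 2) (n : ℕ) :
    3 ≤ n → Ordr F (Fin n → F) := by
  have := Fintype.ofFinite F
  have e : ZMod 2 ≃+* F :=
    ZMod.ringEquivOfPrime F Nat.prime_two (by rw [← Nat.card_eq_fintype_card, hq])
  have hc : ∀ c : F, c = 0 ∨ c = 1 := by
    intro c
    have : ∀ z : ZMod 2, z = 0 ∨ z = 1 := by decide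
    rcases this (e.symm c) with h | h
    · left; rw [← e.apply_symm_apply c, h, map_zero]
    · right; rw [← e.apply_symm_apply c, h, map_one]
  have hpow : ∀ N, 2 ≤ N → 3 ≤ Nat.card F ^ N := by
    intro N hN
    rw [hq]
    calc 3 ≤ 2 ^ 2 := by norm_num
      _ ≤ 2 ^ N := Nat.pow_le_pow_right (by norm_num) hN
  induction n using Nat.strong_induction_on with
  | _ n ih =>
    intro hn
    by_cases h3 : n = 3
    · subst h3; exact ord_two_three e
    by_cases h4 : n = 4
    · subst h4; exact ord_two_four e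
    obtain ⟨N, rfl | rfl⟩ := Nat.even_or_odd' n
    · exact ord_double N (by omega) (hpow N (by omega)) (ih N (by omega) (by omega))
    · obtain ⟨K, _, _, _, h1, h2⟩ := exists_ext F N (by omega)
      have hK : Ordr F (K × K) := (ih (2 * N) (by omega) (by omega)).of_finrank_eq
        (by simp [h1]; ring)
      exact (step_two hc (h2 ▸ hpow N (by omega)) hK).of_finrank_eq (by simp [h1]; ring)

theorem ord_all {F : Type*} [Field F] [Finite F] (n : ℕ) (hn : 2 ≤ n)
    (he : 2 < Nat.card F ^ (n - 1)) : Ordr F (Fin n → F) := by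
  have h2 : 2 ≤ Nat.card F := Finite.one_lt_card
  rcases h2.eq_or_lt with h | h
  · apply ord_two h.symm
    by_contra h3
    have : n = 2 := by omega
    rw [this, ← h] at he
    simp at he
  · exact ord_ge_three h n (by omega)

end Pool.Agent.Lib.MP_9dc2ba_co
end

-- part Pool.Agent.Lib.MP_9dc2ba_co.Geometry
section

/-!
Counting in `PG(n, q)` and the passage from the vector form of the ordering to a triple array.
-/

open Set Function Module Projectivization

namespace Pool.Agent.Lib.MP_9dc2ba_co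

variable {F : Type*} [Field F]

theorem ncard_fiber {V M : Type*} [AddCommGroup V] [Module F V] [AddCommGroup M] [Module F M]
    (L : V →ₗ[F] M) (hL : Surjective L) (t : M) :
    {v | L v = t}.ncard * Nat.card M = Nat.card V := by
  obtain ⟨v₀, hv₀⟩ := hL t
  have h1 : {v | L v = t}.ncard = (LinearMap.ker L : Set V).ncard := by
    apply ncard_congr (fun v _ => v - v₀)
    · intro v hv
      have hv' : L v = t := hv
      simp [hv', hv₀]
    · intro a b _ _ h
      exact sub_left_injective h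
    · intro b hb
      have hb' : L b = 0 := hb
      exact ⟨b + v₀, by simp [hb', hv₀], by simp⟩
  rw [h1, Submodule.card_eq_card_quotient_mul_card (LinearMap.ker L),
    Nat.card_congr (L.quotKerEquivOfSurjective hL).toEquiv]
  rfl

variable {m : Type*} [Fintype m]

theorem orth_iff (x y : Projectivization F (m → F)) : x.orthogonal y ↔ x.rep ⬝ᵥ y.rep = 0 := by
  conv_lhs => rw [← x.mk_rep, ← y.mk_rep]
  exact orthogonal_mk _ _

theorem exists_dot_eq_one (b : m → F) (hb : b ≠ 0) : ∃ w, b ⬝ᵥ w = 1 := by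
  classical
  obtain ⟨i, hi⟩ : ∃ i, b i ≠ 0 := by
    by_contra h
    push Not at h
    exact hb (funext h)
  exact ⟨Pi.single i (b i)⁻¹, by simp [hi]⟩

theorem eq_smul_of_dot (a b : m → F) (hb : b ≠ 0) (h : ∀ v, b ⬝ᵥ v = 0 → a ⬝ᵥ v = 0) :
    ∃ c : F, a = c • b := by
  classical
  obtain ⟨w, hw⟩ := exists_dot_eq_one b hb
  refine ⟨a ⬝ᵥ w, dotProduct_eq _ _ fun v => ?_⟩
  have := h (v - (b ⬝ᵥ v) • w) (by simp [hw])
  rw [dotProduct_sub, dotProduct_smul, smul_eq_mul] at this
  rw [smul_dotProduct, smul_eq_mul]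
  linear_combination this

theorem eq_of_rep_eq_smul {x y : Projectivization F (m → F)} {c : F} (h : x.rep = c • y.rep) :
    x = y := by
  rw [← x.mk_rep, ← y.mk_rep]
  exact (mk_eq_mk_iff' F _ _ _ _).mpr ⟨c, h.symm⟩

theorem exists_sep {x y : Projectivization F (m → F)} (h : x ≠ y) :
    ∃ v, x.rep ⬝ᵥ v = 1 ∧ y.rep ⬝ᵥ v = 0 := by
  by_contra hcon
  push Not at hcon
  obtain ⟨c, hc⟩ := eq_smul_of_dot x.rep y.rep y.rep_nonzero (by
    intro v hv
    by_contra h0
    apply hcon ((x.rep ⬝ᵥ v)⁻¹ • v)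
    · rw [dotProduct_smul, smul_eq_mul, inv_mul_cancel₀ h0]
    · rw [dotProduct_smul, hv, smul_zero])
  exact h (eq_of_rep_eq_smul hc)

theorem ncard_proj (a b : m → F) :
    {z : Projectivization F (m → F) | a ⬝ᵥ z.rep ≠ 0 ∧ b ⬝ᵥ z.rep = 0}.ncard =
      {v : m → F | a ⬝ᵥ v = 1 ∧ b ⬝ᵥ v = 0}.ncard := by
  apply ncard_congr (fun z _ => (a ⬝ᵥ z.rep)⁻¹ • z.rep)
  · rintro z ⟨h1, h2⟩
    constructor
    · rw [dotProduct_smul, smul_eq_mul, inv_mul_cancel₀ h1]
    · rw [dotProduct_smul, h2, smul_zero]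
  · rintro z z' ⟨h1, -⟩ ⟨h1', -⟩ h
    apply eq_of_rep_eq_smul (c := (a ⬝ᵥ z.rep) * (a ⬝ᵥ z'.rep)⁻¹)
    rw [mul_smul, ← h, smul_smul, mul_inv_cancel₀ h1, one_smul]
  · rintro v ⟨h1, h2⟩
    have hv : v ≠ 0 := by
      rintro rfl
      simp at h1
    obtain ⟨c, hc⟩ := exists_smul_eq_mk_rep F v hv
    have e1 : a ⬝ᵥ (mk F v hv).rep = c := by
      rw [← hc, Units.smul_def, dotProduct_smul, h1, smul_eq_mul, mul_one]
    refine ⟨mk F v hv, ⟨?_, ?_⟩, ?_⟩
    · rw [e1]; exact c.ne_zero
    · rw [← hc, Units.smul_def, dotProduct_smul, h2, smul_zero]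
    · rw [e1, ← hc, Units.smul_def, smul_smul, inv_mul_cancel₀ c.ne_zero, one_smul]

variable [Finite F] {n : ℕ}

theorem count_one (x : Projectivization F (Fin (n + 1) → F)) :
    {z | ¬ x.orthogonal z}.ncard = Nat.card F ^ n := by
  have h1 : {z | ¬ x.orthogonal z} = {z : Projectivization F (Fin (n + 1) → F) |
      x.rep ⬝ᵥ z.rep ≠ 0 ∧ (0 : Fin (n + 1) → F) ⬝ᵥ z.rep = 0} := by
    ext z; simp [orth_iff]
  have h2 := ncard_fiber (dotProductEquiv F (Fin (n + 1)) x.rep) (by
    intro t
    obtain ⟨w, hw⟩ := exists_dot_eq_one x.rep x.rep_nonzero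
    exact ⟨t • w, by simp [hw]⟩) 1
  rw [h1, ncard_proj]
  have h3 : {v : Fin (n + 1) → F | x.rep ⬝ᵥ v = 1 ∧ (0 : Fin (n + 1) → F) ⬝ᵥ v = 0} =
      {v | dotProductEquiv F (Fin (n + 1)) x.rep v = 1} := by
    ext v; simp
  rw [h3]
  apply Nat.eq_of_mul_eq_mul_right (Nat.card_pos (α := F))
  rw [h2, Nat.card_fun, Nat.card_eq_fintype_card (α := Fin (n + 1)), Fintype.card_fin, pow_succ]

theorem count_two (hn : 1 ≤ n) {x y : Projectivization F (Fin (n + 1) → F)} (h : x ≠ y) :
    {z | ¬ x.orthogonal z ∧ y.orthogonal z}.ncard = Nat.card F ^ (n - 1) := by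
  have h1 : {z | ¬ x.orthogonal z ∧ y.orthogonal z} =
      {z : Projectivization F (Fin (n + 1) → F) | x.rep ⬝ᵥ z.rep ≠ 0 ∧ y.rep ⬝ᵥ z.rep = 0} := by
    ext z; simp [orth_iff]
  have h2 := ncard_fiber ((dotProductEquiv F (Fin (n + 1)) x.rep).prod
      (dotProductEquiv F (Fin (n + 1)) y.rep)) (by
    rintro ⟨s, t⟩
    obtain ⟨v, hv1, hv2⟩ := exists_sep h
    obtain ⟨w, hw1, hw2⟩ := exists_sep h.symm
    exact ⟨s • v + t • w, by simp [hv1, hv2, hw1, hw2]⟩) (1, 0)
  rw [h1, ncard_proj]
  have h3 : {v : Fin (n + 1) → F | x.rep ⬝ᵥ v = 1 ∧ y.rep ⬝ᵥ v = 0} =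
      {v | ((dotProductEquiv F (Fin (n + 1)) x.rep).prod
        (dotProductEquiv F (Fin (n + 1)) y.rep)) v = (1, 0)} := by
    ext v; simp
  rw [h3]
  apply Nat.eq_of_mul_eq_mul_right (Nat.card_pos (α := F × F))
  rw [h2, Nat.card_fun, Nat.card_eq_fintype_card (α := Fin (n + 1)), Fintype.card_fin,
    Nat.card_prod]
  obtain ⟨k, rfl⟩ : ∃ k, n = k + 1 := ⟨n - 1, by omega⟩
  simp only [Nat.add_sub_cancel]
  ring

theorem ncard_sub {α : Type*} {P : α → Prop} (Q : α → Prop) (h : ∀ x, Q x → P x) :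
    {x : Subtype P | Q x.1}.ncard = {x | Q x}.ncard := by
  apply ncard_preimage_of_injective_subset_range (s := {x | Q x}) Subtype.val_injective
  intro x hx
  exact ⟨⟨x, h x hx⟩, rfl⟩

theorem count_on (x : Projectivization F (Fin (n + 1) → F)) :
    {z | x.orthogonal z}.ncard + Nat.card F ^ n =
      Nat.card (Projectivization F (Fin (n + 1) → F)) := by
  rw [← count_one x]
  exact ncard_add_ncard_compl _

theorem card_rows (p : Projectivization F (Fin (n + 1) → F)) :
    Nat.card {h : Projectivization F (Fin (n + 1) → F) // h.orthogonal p} + Nat.card F ^ n =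
      Nat.card (Projectivization F (Fin (n + 1) → F)) := by
  rw [← count_on p]
  congr 1
  simp only [orthogonal_comm (v := p)]
  rfl

theorem card_cols (p : Projectivization F (Fin (n + 1) → F)) :
    Nat.card {h : Projectivization F (Fin (n + 1) → F) // ¬ h.orthogonal p} = Nat.card F ^ n := by
  rw [← count_one p]
  simp only [orthogonal_comm (v := p)]
  rfl

theorem card_syms (p : Projectivization F (Fin (n + 1) → F)) :
    Nat.card {x : Projectivization F (Fin (n + 1) → F) // x ≠ p} + 1 =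
      Nat.card (Projectivization F (Fin (n + 1) → F)) := by
  have := ncard_add_ncard_compl ({p} : Set (Projectivization F (Fin (n + 1) → F)))
  rw [ncard_singleton, add_comm] at this
  exact this

theorem pg_uta (hn : 1 ≤ n) (p : Projectivization F (Fin (n + 1) → F)) :
    IsUnorderedTripleArray (pgRow p) (pgCol p) (Nat.card F ^ (n - 1)) where
  finite_rows := inferInstance
  finite_cols := inferInstance
  finite_symbols := inferInstance
  card_row := by
    intro h
    rw [card_cols, ← count_one h.1]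
    apply ncard_sub (fun x => ¬ h.1.orthogonal x)
    rintro x hx rfl
    exact hx h.2
  card_col := by
    intro k
    have h1 := card_rows p
    have h2 := count_on k.1
    have h3 : (pgCol p k).ncard = {z | k.1.orthogonal z}.ncard := by
      apply ncard_sub (fun x => k.1.orthogonal x)
      rintro x hx rfl
      exact k.2 hx
    omega
  rep_row := by
    intro s
    rw [← count_two hn s.2, ← ncard_sub (P := fun h => h.orthogonal p)
      (fun z => ¬ s.1.orthogonal z ∧ p.orthogonal z) (fun x hx => orthogonal_comm.mp hx.2)]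
    congr 1
    ext h
    simp only [pgRow, mem_ofPred_eq, orthogonal_comm (v := s.1), orthogonal_comm (v := p), h.2,
      and_true]
  rep_col := by
    intro s
    rw [← count_two hn s.2.symm, ← ncard_sub (P := fun h => ¬ h.orthogonal p)
      (fun z => ¬ p.orthogonal z ∧ s.1.orthogonal z) (fun x hx h => hx.1 (orthogonal_comm.mp h))]
    congr 1
    ext h
    simp only [pgCol, mem_ofPred_eq, orthogonal_comm (v := s.1), orthogonal_comm (v := p), h.2,
      not_false_eq_true, true_and]
  row_col := by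
    refine ⟨Nat.card F ^ (n - 1), fun h k => ?_⟩
    have hne : h.1 ≠ k.1 := fun e => k.2 (e ▸ h.2)
    rw [← count_two hn hne]
    apply ncard_sub (fun z => ¬ h.1.orthogonal z ∧ k.1.orthogonal z)
    rintro x hx rfl
    exact hx.1 h.2
  row_row := by
    refine ⟨Nat.card F ^ n - Nat.card F ^ (n - 1), fun h h' hne => ?_⟩
    have hne' : h.1 ≠ h'.1 := fun e => hne (Subtype.ext e)
    have h1 := ncard_inter_add_ncard_sdiff_eq_ncard {z | ¬ h.1.orthogonal z}
      {z | ¬ h'.1.orthogonal z}
    have h2 : {z | ¬ h.1.orthogonal z} \ {z | ¬ h'.1.orthogonal z} =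
        {z | ¬ h.1.orthogonal z ∧ h'.1.orthogonal z} := by
      ext z; simp
    rw [h2, count_two hn hne', count_one] at h1
    have h3 : (pgRow p h ∩ pgRow p h').ncard =
        ({z | ¬ h.1.orthogonal z} ∩ {z | ¬ h'.1.orthogonal z}).ncard := by
      apply ncard_sub (fun z => ¬ h.1.orthogonal z ∧ ¬ h'.1.orthogonal z)
      rintro x hx rfl
      exact hx.1 h.2
    omega
  col_col := by
    refine ⟨Nat.card (Projectivization F (Fin (n + 1) → F)) - Nat.card F ^ n -
      Nat.card F ^ (n - 1), fun k k' hne => ?_⟩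
    have hne' : k'.1 ≠ k.1 := fun e => hne (Subtype.ext e.symm)
    have h1 := ncard_inter_add_ncard_sdiff_eq_ncard {z | k.1.orthogonal z}
      {z | k'.1.orthogonal z}
    have h2 : {z | k.1.orthogonal z} \ {z | k'.1.orthogonal z} =
        {z | ¬ k'.1.orthogonal z ∧ k.1.orthogonal z} := by
      ext z; simp [and_comm]
    rw [h2, count_two hn hne'] at h1
    have h4 := count_on k.1
    have h3 : (pgCol p k ∩ pgCol p k').ncard =
        ({z | k.1.orthogonal z} ∩ {z | k'.1.orthogonal z}).ncard := by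
      apply ncard_sub (fun z => k.1.orthogonal z ∧ k'.1.orthogonal z)
      rintro x hx rfl
      exact k.2 hx.1
    omega

theorem triple_of_uta {I J S : Type*} {R : I → Set S} {C : J → Set S} {e : ℕ}
    (hU : IsUnorderedTripleArray R C e) (T : I → J → S) (h1 : ∀ i, Injective (fun j => T i j))
    (h2 : ∀ j, Injective (fun i => T i j)) (h3 : ∀ i, range (fun j => T i j) = R i)
    (h4 : ∀ j, range (fun i => T i j) = C j) : IsTripleArray T where
  finite_rows := hU.finite_rows
  finite_cols := hU.finite_cols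
  finite_symbols := hU.finite_symbols
  row_inj := h1
  col_inj := h2
  equireplicate := by
    refine ⟨e, fun s => ?_⟩
    rw [← hU.rep_row s]
    apply ncard_congr (fun c _ => c.1)
    · rintro ⟨i, j⟩ hc
      have : s ∈ R i := by rw [← h3]; exact ⟨j, hc⟩
      exact this
    · rintro ⟨i, j⟩ ⟨i', j'⟩ hc hc' h
      simp only at h
      subst h
      have a1 : T i j = s := hc
      have a2 : T i j' = s := hc'
      rw [h1 i (a1.trans a2.symm)]
    · intro i hi
      have : s ∈ range (fun j => T i j) := by rw [h3]; exact hi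
      obtain ⟨j, hj⟩ := this
      exact ⟨(i, j), hj, rfl⟩
  row_row := by simpa only [h3] using hU.row_row
  col_col := by simpa only [h4] using hU.col_col
  row_col := by simpa only [h3, h4] using hU.row_col

theorem pg_order (hn : 1 ≤ n) (p : Projectivization F (Fin (n + 1) → F))
    (hO : Ordr F (Fin n → F)) :
    ∃ T : {h : Projectivization F (Fin (n + 1) → F) // h.orthogonal p} →
        {k : Projectivization F (Fin (n + 1) → F) // ¬ k.orthogonal p} →
        {x : Projectivization F (Fin (n + 1) → F) // x ≠ p},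
      IsTripleArray T ∧ (∀ i, range (fun j => T i j) = pgRow p i) ∧
        (∀ j, range (fun i => T i j) = pgCol p j) := by
  have hU := pg_uta hn p
  set W := LinearMap.ker (dotProductEquiv F (Fin (n + 1)) p.rep) with hW
  have hmem : ∀ v, v ∈ W ↔ p.rep ⬝ᵥ v = 0 := fun v => by simp [hW]
  obtain ⟨k₀, hk₀⟩ := exists_dot_eq_one p.rep p.rep_nonzero
  have hrank : finrank F (Fin n → F) = finrank F W := by
    have h1 := LinearMap.finrank_range_add_finrank_ker (dotProductEquiv F (Fin (n + 1)) p.rep)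
    have h2 : LinearMap.range (dotProductEquiv F (Fin (n + 1)) p.rep) = ⊤ := by
      rw [LinearMap.range_eq_top]
      intro t
      exact ⟨t • k₀, by simp [hk₀]⟩
    rw [h2, finrank_top, finrank_self, finrank_fin_fun, ← hW] at h1
    rw [finrank_fin_fun]
    omega
  obtain ⟨τ, t1, t2, t3⟩ := hO.of_finrank_eq hrank
  let nk : {k : Projectivization F (Fin (n + 1) → F) // ¬ k.orthogonal p} → Fin (n + 1) → F :=
    fun k => (p.rep ⬝ᵥ k.1.rep)⁻¹ • k.1.rep
  have hk0 : ∀ k : {k : Projectivization F (Fin (n + 1) → F) // ¬ k.orthogonal p},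
      p.rep ⬝ᵥ k.1.rep ≠ 0 := fun k h => k.2 (orthogonal_comm.mp ((orth_iff _ _).mpr h))
  have hnk : ∀ k, p.rep ⬝ᵥ nk k = 1 := by
    intro k
    simp only [nk]
    rw [dotProduct_smul, smul_eq_mul, inv_mul_cancel₀ (hk0 k)]
  have hnk2 : ∀ k x, x ∈ pgCol p k → x.1.rep ⬝ᵥ nk k = 0 := by
    intro k x hx
    have : x.1.rep ⬝ᵥ k.1.rep = 0 := (orth_iff _ _).mp (orthogonal_comm.mp hx)
    simp only [nk]
    rw [dotProduct_smul, this, smul_zero]
  let pt : {k : Projectivization F (Fin (n + 1) → F) // ¬ k.orthogonal p} → W :=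
    fun k => ⟨nk k - k₀, by rw [hmem, dotProduct_sub, hnk, hk₀, sub_self]⟩
  let fn : {x : Projectivization F (Fin (n + 1) → F) // x ≠ p} → Dual F W :=
    fun x => dotProductEquiv F (Fin (n + 1)) x.1.rep ∘ₗ W.subtype
  have hfn : ∀ x (w : W), fn x w = x.1.rep ⬝ᵥ (w : Fin (n + 1) → F) := fun x w => by simp [fn]
  have hfn0 : ∀ x, fn x ≠ 0 := by
    intro x h
    obtain ⟨v, hv1, hv2⟩ := exists_sep x.2
    have := hfn x ⟨v, (hmem v).mpr hv2⟩
    rw [h, hv1] at this
    simp at this
  have hτ0 : ∀ k x, (τ (pt k) (fn x) : Fin (n + 1) → F) ≠ 0 := by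
    intro k x h
    apply t1 (pt k) _ (hfn0 x)
    rw [hfn, h, dotProduct_zero]
  let ρ : {k : Projectivization F (Fin (n + 1) → F) // ¬ k.orthogonal p} →
      {x : Projectivization F (Fin (n + 1) → F) // x ≠ p} →
      {h : Projectivization F (Fin (n + 1) → F) // h.orthogonal p} :=
    fun k x => ⟨mk F _ (hτ0 k x), by
      conv_rhs => rw [← p.mk_rep]
      rw [orthogonal_mk, dotProduct_comm]
      exact (hmem _).mp (τ (pt k) (fn x)).2⟩
  have hρ : ∀ k x k' x', ρ k x = ρ k' x' → ∃ c : F, τ (pt k) (fn x) = c • τ (pt k') (fn x') := by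
    intro k x k' x' h
    obtain ⟨c, hc⟩ := (mk_eq_mk_iff' F _ _ _ _).mp (congrArg Subtype.val h)
    exact ⟨c, Subtype.ext hc.symm⟩
  have hinj : ∀ k, InjOn (ρ k) (pgCol p k) := by
    intro k x hx x' hx' h
    obtain ⟨c, hc⟩ := hρ _ _ _ _ h
    obtain ⟨c', hc'⟩ := t2 _ _ _ c (hfn0 x) (hfn0 x') hc
    apply Subtype.ext
    apply eq_of_rep_eq_smul (c := c')
    apply dotProduct_eq
    intro v
    have h1 := LinearMap.congr_fun hc' ⟨v - (p.rep ⬝ᵥ v) • nk k, by
      rw [hmem, dotProduct_sub, dotProduct_smul, hnk, smul_eq_mul, mul_one, sub_self]⟩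
    rw [LinearMap.smul_apply, hfn, hfn] at h1
    simp only [dotProduct_sub, dotProduct_smul, hnk2 k x hx, hnk2 k x' hx', smul_zero,
      sub_zero] at h1
    rw [h1, smul_dotProduct]
  have hsurj : ∀ k h, ∃ x ∈ pgCol p k, ρ k x = h := by
    intro k h
    have h1 : ρ k '' pgCol p k = univ := by
      apply eq_of_subset_of_ncard_le (subset_univ _)
      rw [ncard_univ, (hinj k).ncard_image, hU.card_col]
    have : h ∈ ρ k '' pgCol p k := by rw [h1]; exact mem_univ _
    exact this
  choose T hT1 hT2 using hsurj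
  have hrow : ∀ h, Injective (fun k => T k h) := by
    intro h k k' e
    simp only at e
    have a1 := hT2 k h
    have a2 := hT2 k' h
    have b1 := hnk2 k _ (hT1 k h)
    have b2 := hnk2 k' _ (hT1 k' h)
    rw [← e] at a2 b2
    obtain ⟨c, hc⟩ := hρ _ _ _ _ (a1.trans a2.symm)
    have h1 := t3 _ _ _ c (hfn0 _) (by
      rw [hfn, hfn]
      simp only [pt, dotProduct_sub, b1, b2]) hc
    have h2 : nk k = nk k' := sub_left_injective (congrArg Subtype.val h1)
    apply Subtype.ext
    apply eq_of_rep_eq_smul (c := (p.rep ⬝ᵥ k.1.rep) * (p.rep ⬝ᵥ k'.1.rep)⁻¹)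
    simp only [nk] at h2
    rw [mul_smul, ← h2, smul_smul, mul_inv_cancel₀ (hk0 k), one_smul]
  have hcol : ∀ k, Injective (fun h => T k h) := by
    intro k h h' e
    simp only at e
    rw [← hT2 k h, ← hT2 k h', e]
  have hrr : ∀ h, range (fun k => T k h) = pgRow p h := by
    intro h
    apply eq_of_subset_of_ncard_le
    · rintro _ ⟨k, rfl⟩ ho
      apply t1 (pt k) _ (hfn0 (T k h))
      rw [← hT2 k h] at ho
      conv_rhs at ho => rw [← (T k (ρ k (T k h))).1.mk_rep]
      rw [hfn, dotProduct_comm]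
      have := (orthogonal_mk _ _).mp ho
      rwa [hT2 k h] at this
    · rw [hU.card_row, ← image_univ, ncard_image_of_injective _ (hrow h), ncard_univ]
    · exact toFinite _
  have hcc : ∀ k, range (fun h => T k h) = pgCol p k := by
    intro k
    apply eq_of_subset_of_ncard_le
    · rintro _ ⟨h, rfl⟩
      exact hT1 k h
    · rw [hU.card_col, ← image_univ, ncard_image_of_injective _ (hcol k), ncard_univ]
    · exact toFinite _
  exact ⟨fun h k => T k h, triple_of_uta hU _ hrow hcol hrr hcc, hrr, hcc⟩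

end Pool.Agent.Lib.MP_9dc2ba_co
end
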