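import Mathlib
import Pool.Agent.Lib.MP_9dc2ba_co.Arrays
import Pool.Agent.Lib.MP_9dc2ba_co.Geometry

/-!
Unordered triple arrays with the parameters of an affine plane.
-/

open Set Function

namespace Pool.Agent.Lib.MP_9dc2ba_co

theorem double_count {α β : Type*} [Fintype α] [Fintype β] (r : α → β → Prop) :
    ∑ a, {b | r a b}.ncard = ∑ b, {a | r a b}.ncard := by
  classical
  have h : ∀ (p : β → Prop), {x | p x}.ncard = ∑ x, if p x then 1 else 0 := by
    intro p
    rw [ncard_eq_toFinset_card', toFinset_ofPred, Finset.card_filter]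
  have h' : ∀ (p : α → Prop), {x | p x}.ncard = ∑ x, if p x then 1 else 0 := by
    intro p
    rw [ncard_eq_toFinset_card', toFinset_ofPred, Finset.card_filter]
  rw [Finset.sum_congr rfl fun a _ => h (r a), Finset.sum_congr rfl fun b _ => h' (r · b)]
  exact Finset.sum_comm

theorem sum_ite_mem {β : Type*} [Fintype β] (t : Set β) (f : β → ℕ) (n : ℕ)
    (h1 : ∀ b ∈ t, f b = n) (h2 : ∀ b ∉ t, f b = 0) : ∑ b, f b = t.ncard * n := by
  classical
  rw [ncard_eq_toFinset_card', ← smul_eq_mul, ← Finset.sum_const,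
    ← Finset.sum_subset (Finset.subset_univ t.toFinset) fun b _ hb => h2 b (by simpa using hb)]
  exact Finset.sum_congr rfl fun b hb => h1 b (by simpa using hb)

theorem IsUnorderedTripleArray.symm {I J S : Type*} {R : I → Set S} {C : J → Set S} {e : ℕ}
    (h : IsUnorderedTripleArray R C e) : IsUnorderedTripleArray C R e where
  finite_rows := h.finite_cols
  finite_cols := h.finite_rows
  finite_symbols := h.finite_symbols
  card_row := h.card_col
  card_col := h.card_row
  rep_row := h.rep_col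
  rep_col := h.rep_row
  row_col := by
    obtain ⟨l, hl⟩ := h.row_col
    exact ⟨l, fun j i => by rw [inter_comm, hl]⟩
  row_row := h.col_col
  col_col := h.row_row

section

variable {I J S : Type*} {R : I → Set S} {C : J → Set S} {e q : ℕ}
  (hU : IsUnorderedTripleArray R C e) (hq : 2 ≤ q) (hI : Nat.card I = q + 1)
  (hJ : Nat.card J = q ^ 2) (hS : Nat.card S = q ^ 2 + q)
include hU hq hI hJ hS

theorem rep_eq : e = q := by
  have := hU.finite_rows
  have := hU.finite_symbols
  have := Fintype.ofFinite I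
  have := Fintype.ofFinite S
  have h := double_count (fun i s => s ∈ R i)
  simp only [ofPred_mem_eq, hU.card_row, hU.rep_row, Finset.sum_const, Finset.card_univ,
    ← Nat.card_eq_fintype_card, hI, hJ, hS, smul_eq_mul] at h
  have h2 : (q ^ 2 + q) * e = (q ^ 2 + q) * q := by rw [← h]; ring
  exact Nat.eq_of_mul_eq_mul_left (by positivity) h2

theorem exists_cls (s : S) : ∃! i, s ∉ R i := by
  have := hU.finite_rows
  have h := ncard_add_ncard_compl {i | s ∈ R i}
  rw [hU.rep_row, rep_eq hU hq hI hJ hS, hI] at h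
  obtain ⟨i, hi⟩ := ncard_eq_one.1 (show {i | s ∈ R i}ᶜ.ncard = 1 by omega)
  exact ⟨i, show i ∈ {i | s ∈ R i}ᶜ from hi ▸ rfl,
    fun j hj => (hi ▸ hj : j ∈ ({i} : Set I))⟩

theorem exists_ln (j : J) (i : I) : ∃! s, s ∈ C j ∧ s ∉ R i := by
  have := hU.finite_rows
  have := hU.finite_symbols
  have := Fintype.ofFinite I
  have := Fintype.ofFinite S
  obtain ⟨l, hl⟩ := hU.row_col
  have h := double_count (fun i s => s ∈ R i ∩ C j)
  rw [sum_ite_mem (C j) (fun s => {i | s ∈ R i ∩ C j}.ncard) e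
    (fun s hs => by simp only [mem_inter_iff, hs, and_true]; exact hU.rep_row s)
    (fun s hs => by simp [hs])] at h
  simp only [ofPred_mem_eq, hl, Finset.sum_const, Finset.card_univ,
    ← Nat.card_eq_fintype_card, hI, hU.card_col, smul_eq_mul] at h
  have h2 : l = q := (Nat.eq_of_mul_eq_mul_left (by positivity) h).trans (rep_eq hU hq hI hJ hS)
  have h3 := ncard_inter_add_ncard_sdiff_eq_ncard (C j) (R i)
  rw [inter_comm, hl, hU.card_col, hI, h2] at h3
  obtain ⟨s, hs⟩ := ncard_eq_one.1 (show (C j \ R i).ncard = 1 by omega)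
  exact ⟨s, show s ∈ C j \ R i from hs ▸ rfl,
    fun t ht => (hs ▸ ht : t ∈ ({s} : Set S))⟩

theorem exists_join {j j' : J} (hne : j ≠ j') : ∃! s, s ∈ C j ∧ s ∈ C j' := by
  classical
  have := hU.finite_cols
  have := hU.finite_symbols
  have := Fintype.ofFinite J
  have := Fintype.ofFinite S
  obtain ⟨l, hl⟩ := hU.col_col
  have h := double_count (fun j' s => s ∈ C j ∩ C j')
  rw [sum_ite_mem (C j) (fun s => {j' | s ∈ C j ∩ C j'}.ncard) e
    (fun s hs => by simp only [mem_inter_iff, hs, true_and]; exact hU.rep_col s)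
    (fun s hs => by simp [hs]), ← Finset.add_sum_erase _ _ (Finset.mem_univ j),
    Finset.sum_congr rfl (fun j' hj' => show {s | s ∈ C j ∩ C j'}.ncard = l from
      hl j j' (Finset.ne_of_mem_erase hj').symm)] at h
  simp only [inter_self, ofPred_mem_eq, Finset.sum_const, Finset.card_erase_of_mem
    (Finset.mem_univ j), Finset.card_univ, ← Nat.card_eq_fintype_card, hI, hJ, hU.card_col,
    smul_eq_mul, rep_eq hU hq hI hJ hS] at h
  have h1 : 1 < q ^ 2 := by nlinarith
  obtain ⟨n, hn⟩ : ∃ n, q ^ 2 = n + 1 := ⟨q ^ 2 - 1, by omega⟩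
  have h2 : n * l = n * 1 := by
    rw [hn, Nat.add_sub_cancel] at h
    nlinarith
  have h3 : l = 1 := Nat.eq_of_mul_eq_mul_left (by omega) h2
  obtain ⟨s, hs⟩ := ncard_eq_one.1 ((hl j j' hne).trans h3)
  exact ⟨s, show s ∈ C j ∩ C j' from hs ▸ rfl, fun t ht => (hs ▸ ht : t ∈ ({s} : Set S))⟩

theorem exists_pl {M : Type*} (ε : Option M ≃ I) :
    ∃ P : Pl J S M, ∀ x o, P.ln x o ∈ C x ∧ P.ln x o ∉ R (ε o) := by
  have := hU.finite_cols
  have := hU.finite_symbols
  choose ln hln huniq using exists_ln hU hq hI hJ hS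
  have hcls : ∀ x y i i', ln x i = ln y i' → i = i' := fun x y i i' h =>
    (exists_cls hU hq hI hJ hS (ln x i)).unique (hln x i).2 (h ▸ (hln y i').2)
  have hu : ∀ x y i i', i ≠ i' → ln x i = ln y i → ln x i' = ln y i' → x = y := by
    intro x y i i' hne h h'
    by_contra hxy
    exact hne (hcls x x i i' ((exists_join hU hq hI hJ hS hxy).unique
      ⟨(hln x i).1, h ▸ (hln y i).1⟩ ⟨(hln x i').1, h' ▸ (hln y i').1⟩))
  have hon : ∀ x i, {z | ln z i = ln x i} = {z | ln x i ∈ C z} := by
    intro x i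
    ext z
    exact ⟨fun h => (show ln z i = ln x i from h) ▸ (hln z i).1,
      fun h => (huniq z i _ ⟨h, (hln x i).2⟩).symm⟩
  have hcard : ∀ x i, {z | ln z i = ln x i}.ncard = q := fun x i => by
    rw [hon, hU.rep_col, rep_eq hU hq hI hJ hS]
  have hne : Nonempty J := (Nat.card_pos_iff.1 (show 0 < Nat.card J by rw [hJ]; positivity)).1
  obtain ⟨w⟩ := hne
  obtain ⟨ys, hys, hyw⟩ := exists_ne_of_one_lt_ncard
    (show 1 < {z | ln z (ε none) = ln w (ε none)}.ncard by rw [hcard]; omega) w
  refine ⟨⟨fun x o => ln x (ε o), fun x y m m' h => ε.injective (hcls _ _ _ _ h), fun x y => ?_,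
    fun x y m m' h => hu x y _ _ (ε.injective.ne h), fun m m' x y h => ?_, w, ys, hys, hyw⟩,
    fun x o => hln x (ε o)⟩
  · by_cases hxy : x = y
    · exact ⟨none, by rw [hxy]⟩
    · obtain ⟨s, hs, -⟩ := exists_join hU hq hI hJ hS hxy
      obtain ⟨i, hi, -⟩ := exists_cls hU hq hI hJ hS s
      refine ⟨ε.symm i, ?_⟩
      rw [ε.apply_symm_apply, ← huniq x i s ⟨hs.1, hi⟩, ← huniq y i s ⟨hs.2, hi⟩]
  · have h1 := ncard_add_ncard_compl (R (ε m'))
    rw [hU.card_row, hJ, hS] at h1
    have h2 : (fun z => ln z (ε m')) '' {z | ln z (ε m) = ln x (ε m)} = (R (ε m'))ᶜ := by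
      apply eq_of_subset_of_ncard_le
      · rintro _ ⟨z, _, rfl⟩
        exact (hln z _).2
      · rw [InjOn.ncard_image, hcard]
        · omega
        · intro z hz z' hz' h'
          exact hu z z' _ _ (ε.injective.ne h) (hz.trans hz'.symm) h'
      · exact toFinite _
    have h3 : ln y (ε m') ∈ (R (ε m'))ᶜ := (hln y _).2
    rw [← h2] at h3
    obtain ⟨z, hz, hz'⟩ := h3
    exact ⟨z, hz, hz'⟩

theorem order_of_colouring {M : Type*} (ε : Option M ≃ I) (P : Pl J S M)
    (hP : ∀ x o, P.ln x o ∈ C x ∧ P.ln x o ∉ R (ε o)) (c : J → Option M → Option M)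
    (h1 : ∀ x o, c x o ≠ o) (h2 : ∀ x, Injective (c x))
    (h3 : ∀ x y o, P.ln x o = P.ln y o → c x o = c y o → x = y) :
    ∃ T : I → J → S, (∀ i, Injective (fun j => T i j)) ∧ (∀ j, Injective (fun i => T i j)) ∧
      (∀ i, range (fun j => T i j) = R i) ∧ ∀ j, range (fun i => T i j) = C j := by
  have := hU.finite_rows
  have := hU.finite_cols
  have := hU.finite_symbols
  have : Finite (Option M) := Finite.of_equiv _ ε.symm
  let d : J → Option M ≃ Option M := fun x =>
    Equiv.ofBijective (c x) (Finite.injective_iff_bijective.1 (h2 x))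
  have hd : ∀ x o, c x ((d x).symm o) = o := fun x o => (d x).apply_symm_apply o
  have hrow : ∀ i, Injective (fun j => P.ln j ((d j).symm (ε.symm i))) := by
    intro i x y h
    have h4 := P.cls _ _ _ _ h
    simp only at h
    rw [← h4] at h
    exact h3 x y _ h (by rw [hd, h4, hd])
  have hcol : ∀ j, Injective (fun i => P.ln j ((d j).symm (ε.symm i))) := by
    intro j i i' h
    exact ε.symm.injective ((d j).symm.injective (P.cls _ _ _ _ h))
  refine ⟨fun i j => P.ln j ((d j).symm (ε.symm i)), hrow, hcol, fun i => ?_, fun j => ?_⟩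
  · apply eq_of_subset_of_ncard_le _ _ (toFinite _)
    · rintro _ ⟨x, rfl⟩
      by_contra hx
      have h4 := (exists_cls hU hq hI hJ hS _).unique hx (hP x _).2
      apply h1 x ((d x).symm (ε.symm i))
      rw [hd]
      exact ε.symm_apply_eq.2 h4
    · rw [hU.card_row, ncard_range_of_injective (hrow i)]
  · apply eq_of_subset_of_ncard_le _ _ (toFinite _)
    · rintro _ ⟨i, rfl⟩
      exact (hP j _).1
    · rw [hU.card_col, ncard_range_of_injective (hcol j)]

end

theorem order_plane {I J S : Type*} {R : I → Set S} {C : J → Set S} {e q : ℕ}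
    (hU : IsUnorderedTripleArray R C e) (hq : 7 ≤ q) (hI : Nat.card I = q + 1)
    (hJ : Nat.card J = q ^ 2) (hS : Nat.card S = q ^ 2 + q) :
    ∃ T : I → J → S, (∀ i, Injective (fun j => T i j)) ∧ (∀ j, Injective (fun i => T i j)) ∧
      (∀ i, range (fun j => T i j) = R i) ∧ ∀ j, range (fun i => T i j) = C j := by
  have := hU.finite_rows
  have := hU.finite_cols
  obtain ⟨M, K, _, hM, ⟨A⟩⟩ := exists_arr q hq
  obtain ⟨ε⟩ : Nonempty (Option M ≃ I) := Finite.card_eq.1 (by rw [Finite.card_option, hM, hI])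
  obtain ⟨P, hP⟩ := exists_pl hU (by omega) hI hJ hS ε
  obtain ⟨c, h1, h2, h3⟩ := P.exists_colouring A
  exact order_of_colouring hU (by omega) hI hJ hS ε P hP c h1 h2 h3

end Pool.Agent.Lib.MP_9dc2ba_co
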